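import Pool.Agent.Helper89.Plane.Koenigs

/-!
The group of orientation-preserving real-analytic diffeomorphisms of the plane, translations, dilations
and the twist maps `z ↦ z exp (i a |z|² exp (1 - |z|²))`.
-/

set_option autoImplicit false

open scoped ComplexConjugate Topology ENNReal NNReal
open Filter

namespace Pool.Agent.Helper89.Plane

lemma mul_coe (f g : ℂ ≃ₜ ℂ) : ((f * g : ℂ ≃ₜ ℂ) : ℂ → ℂ) = fun z => f (g z) := rfl

lemma inv_coe (f : ℂ ≃ₜ ℂ) : ((f⁻¹ : ℂ ≃ₜ ℂ) : ℂ → ℂ) = f.symm := rfl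

/-- orientation-preserving real-analytic diffeomorphisms -/
def AnaPos : Subgroup (ℂ ≃ₜ ℂ) where
  carrier := {f | AnalyticOnNhd ℝ f Set.univ ∧ AnalyticOnNhd ℝ f.symm Set.univ ∧
    ∀ z, 0 < (fderiv ℝ f z).det}
  mul_mem' := by
    rintro f g ⟨hf1, hf2, hf3⟩ ⟨hg1, hg2, hg3⟩
    refine ⟨?_, ?_, ?_⟩
    · intro z _
      rw [mul_coe]
      exact (hf1 _ (Set.mem_univ _)).comp (hg1 z (Set.mem_univ _))
    · intro z _
      have : ((f * g).symm : ℂ → ℂ) = fun z => g.symm (f.symm z) := rfl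
      rw [this]
      exact (hg2 _ (Set.mem_univ _)).comp (hf2 z (Set.mem_univ _))
    · intro z
      have h1 := (hf1 (g z) (Set.mem_univ _)).differentiableAt.hasFDerivAt
      have h2 := (hg1 z (Set.mem_univ _)).differentiableAt.hasFDerivAt
      have h3 : HasFDerivAt ((f * g : ℂ ≃ₜ ℂ) : ℂ → ℂ) ((fderiv ℝ f (g z)).comp (fderiv ℝ g z)) z :=
        h1.comp z h2
      rw [h3.fderiv]
      have h4 : ((fderiv ℝ f (g z)).comp (fderiv ℝ g z)).det = (fderiv ℝ f (g z)).det * (fderiv ℝ g z).det := by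
        simp only [ContinuousLinearMap.det, ContinuousLinearMap.toLinearMap_comp, LinearMap.det_comp]
      rw [h4]
      exact mul_pos (hf3 _) (hg3 _)
  one_mem' := by
    have h1 : ((1 : ℂ ≃ₜ ℂ) : ℂ → ℂ) = fun z => z := rfl
    have h2 : ((1 : ℂ ≃ₜ ℂ).symm : ℂ → ℂ) = fun z => z := rfl
    refine ⟨?_, ?_, ?_⟩
    · rw [h1]; exact fun z _ => analyticAt_id
    · rw [h2]; exact fun z _ => analyticAt_id
    · intro z
      rw [h1, fderiv_fun_id]
      simp [ContinuousLinearMap.det]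
  inv_mem' := by
    rintro f ⟨hf1, hf2, hf3⟩
    refine ⟨hf2, hf1, ?_⟩
    intro z
    rw [inv_coe]
    have h1 := (hf1 (f.symm z) (Set.mem_univ _)).differentiableAt.hasFDerivAt
    have h2 := (hf2 z (Set.mem_univ _)).differentiableAt.hasFDerivAt
    have h3 : HasFDerivAt (fun w => f (f.symm w)) ((fderiv ℝ f (f.symm z)).comp (fderiv ℝ f.symm z)) z :=
      h1.comp z h2
    have h5 : (fun w => f (f.symm w)) = fun w => w := by funext w; simp
    rw [h5] at h3
    have h6 := h3.unique (hasFDerivAt_id (𝕜 := ℝ) z)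
    have h7 : (fderiv ℝ f (f.symm z)).det * (fderiv ℝ f.symm z).det = 1 := by
      have h8 := congrArg ContinuousLinearMap.det h6
      simpa [ContinuousLinearMap.det, LinearMap.det_comp] using h8
    have h8 := hf3 (f.symm z)
    by_contra hcon
    push Not at hcon
    nlinarith

lemma AnaPos_iff (f : ℂ ≃ₜ ℂ) : f ∈ AnaPos ↔ AnalyticOnNhd ℝ f Set.univ ∧ AnalyticOnNhd ℝ f.symm Set.univ ∧
    ∀ z, 0 < (fderiv ℝ f z).det := Iff.rfl

/-- positivity of the Jacobian at one point is enough -/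
lemma anaPos_of_point {f : ℂ ≃ₜ ℂ} (h1 : AnalyticOnNhd ℝ f Set.univ) (h2 : AnalyticOnNhd ℝ f.symm Set.univ)
    {z₀ : ℂ} (h3 : 0 < (fderiv ℝ f z₀).det) : f ∈ AnaPos := by
  refine ⟨h1, h2, ?_⟩
  have hne : ∀ z, (fderiv ℝ f z).det ≠ 0 := by
    intro z hz
    have e1 := (h1 z (Set.mem_univ _)).differentiableAt.hasFDerivAt
    have e2 := (h2 (f z) (Set.mem_univ _)).differentiableAt.hasFDerivAt
    have e3 : HasFDerivAt (fun w => f.symm (f w)) ((fderiv ℝ f.symm (f z)).comp (fderiv ℝ f z)) z :=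
      e2.comp z e1
    have e5 : (fun w => f.symm (f w)) = fun w => w := by funext w; simp
    rw [e5] at e3
    have h6 := e3.unique (hasFDerivAt_id (𝕜 := ℝ) z)
    have h7 : (fderiv ℝ f.symm (f z)).det * (fderiv ℝ f z).det = 1 := by
      have h8 := congrArg ContinuousLinearMap.det h6
      simpa [ContinuousLinearMap.det, LinearMap.det_comp] using h8
    rw [hz, mul_zero] at h7
    exact zero_ne_one h7
  have hcont : Continuous fun z => (fderiv ℝ f z).det := by
    have e1 : Continuous (fderiv ℝ f) :=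
      continuous_iff_continuousAt.mpr fun z => (h1.fderiv z (Set.mem_univ _)).continuousAt
    exact ContinuousLinearMap.continuous_det.comp e1
  intro z
  by_contra hcon
  push Not at hcon
  obtain ⟨w, hw⟩ := mem_range_of_exists_le_of_exists_ge hcont ⟨z, hcon⟩ ⟨z₀, h3.le⟩
  exact hne w hw

lemma anaPos_of_scalar {f : ℂ ≃ₜ ℂ} (h1 : AnalyticOnNhd ℝ f Set.univ) (h2 : AnalyticOnNhd ℝ f.symm Set.univ)
    {z₀ : ℂ} {c : ℝ} (hc : c ≠ 0) (h3 : HasFDerivAt f (c • ContinuousLinearMap.id ℝ ℂ) z₀) : f ∈ AnaPos := by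
  refine anaPos_of_point (z₀ := z₀) h1 h2 ?_
  rw [h3.fderiv]
  have : (c • ContinuousLinearMap.id ℝ ℂ).det = c ^ 2 := by
    simp only [ContinuousLinearMap.det, ContinuousLinearMap.toLinearMap_smul, LinearMap.det_smul,
      ContinuousLinearMap.coe_id, LinearMap.det_id, mul_one, Complex.finrank_real_complex]
  rw [this]
  positivity

/-- translation -/
noncomputable def tr (c : ℂ) : ℂ ≃ₜ ℂ := Homeomorph.addRight c

@[simp] lemma tr_apply (c z : ℂ) : tr c z = z + c := rfl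
@[simp] lemma tr_symm_apply (c z : ℂ) : (tr c).symm z = z - c := by
  rw [Homeomorph.symm_apply_eq]; simp

lemma tr_mul (c d : ℂ) : tr c * tr d = tr (c + d) := by
  ext z
  simp only [Homeomorph.mul_apply, tr_apply]
  ring

lemma tr_zero : tr 0 = 1 := by
  ext z
  simp only [tr_apply, add_zero, Homeomorph.one_apply]

lemma tr_inv (c : ℂ) : (tr c)⁻¹ = tr (-c) := by
  rw [inv_eq_iff_mul_eq_one, tr_mul, add_neg_cancel, tr_zero]

/-- dilation by `exp s` -/
noncomputable def sc (s : ℝ) : ℂ ≃ₜ ℂ where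
  toFun z := Complex.exp s * z
  invFun z := Complex.exp (-s) * z
  left_inv z := by
    show Complex.exp (-s) * (Complex.exp s * z) = z
    rw [← mul_assoc, ← Complex.exp_add]; simp
  right_inv z := by
    show Complex.exp s * (Complex.exp (-s) * z) = z
    rw [← mul_assoc, ← Complex.exp_add]; simp
  continuous_toFun := by fun_prop
  continuous_invFun := by fun_prop

@[simp] lemma sc_apply (s : ℝ) (z : ℂ) : sc s z = Complex.exp s * z := rfl
@[simp] lemma sc_symm_apply (s : ℝ) (z : ℂ) : (sc s).symm z = Complex.exp (-s) * z := rfl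

lemma sc_zero : sc 0 = 1 := by
  ext z
  simp only [sc_apply, Complex.ofReal_zero, Complex.exp_zero, one_mul, Homeomorph.one_apply]

/-- the profile of the twist -/
noncomputable def prof (z : ℂ) : ℝ := ‖z‖ ^ 2 * Real.exp (1 - ‖z‖ ^ 2)

/-- the twist map -/
noncomputable def tw (a : ℝ) : ℂ ≃ₜ ℂ where
  toFun z := z * Complex.exp ((a * prof z : ℝ) * Complex.I)
  invFun z := z * Complex.exp ((-a * prof z : ℝ) * Complex.I)
  left_inv z := by
    show (z * Complex.exp ((a * prof z : ℝ) * Complex.I)) *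
      Complex.exp ((-a * prof (z * Complex.exp ((a * prof z : ℝ) * Complex.I)) : ℝ) * Complex.I) = z
    have h1 : prof (z * Complex.exp ((a * prof z : ℝ) * Complex.I)) = prof z := by
      simp only [prof, norm_mul, Complex.norm_exp_ofReal_mul_I, mul_one]
    rw [h1, mul_assoc, ← Complex.exp_add]
    have : ((a * prof z : ℝ) : ℂ) * Complex.I + ((-a * prof z : ℝ) : ℂ) * Complex.I = 0 := by
      push_cast; ring
    rw [this, Complex.exp_zero, mul_one]
  right_inv z := by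
    show (z * Complex.exp ((-a * prof z : ℝ) * Complex.I)) *
      Complex.exp ((a * prof (z * Complex.exp ((-a * prof z : ℝ) * Complex.I)) : ℝ) * Complex.I) = z
    have h1 : prof (z * Complex.exp ((-a * prof z : ℝ) * Complex.I)) = prof z := by
      simp only [prof, norm_mul, Complex.norm_exp_ofReal_mul_I, mul_one]
    rw [h1, mul_assoc, ← Complex.exp_add]
    have : ((-a * prof z : ℝ) : ℂ) * Complex.I + ((a * prof z : ℝ) : ℂ) * Complex.I = 0 := by
      push_cast; ring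
    rw [this, Complex.exp_zero, mul_one]
  continuous_toFun := by unfold prof; fun_prop
  continuous_invFun := by unfold prof; fun_prop

lemma tw_apply (a : ℝ) (z : ℂ) : tw a z = z * Complex.exp ((a * prof z : ℝ) * Complex.I) := rfl
lemma tw_symm_apply (a : ℝ) (z : ℂ) : (tw a).symm z = z * Complex.exp ((-a * prof z : ℝ) * Complex.I) := rfl

lemma tw_inv (a : ℝ) : (tw a)⁻¹ = tw (-a) := by
  ext z
  rw [Homeomorph.inv_apply, tw_symm_apply, tw_apply]

lemma prof_zero : prof 0 = 0 := by simp [prof]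
lemma prof_one : prof 1 = 1 := by simp [prof]

lemma tw_zero : tw 0 = 1 := by
  ext z
  rw [tw_apply]
  simp

/-! ### analyticity -/

lemma conj_analytic (z : ℂ) : AnalyticAt ℝ (fun z : ℂ => conj z) z :=
  Complex.conjCLE.toContinuousLinearMap.analyticAt z

lemma cexp_analytic (z : ℂ) : AnalyticAt ℝ Complex.exp z :=
  (analyticAt_cexp (z := z)).restrictScalars

/-- a complex form of the twist -/
lemma tw_apply' (a : ℝ) (z : ℂ) : tw a z =
    z * Complex.exp ((a * Complex.I) * ((z * conj z) * Complex.exp (1 + (-1) * (z * conj z)))) := by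
  rw [tw_apply, prof]
  congr 2
  rw [Complex.mul_conj, Complex.normSq_eq_norm_sq]
  push_cast
  ring_nf

lemma tw_analytic (a : ℝ) : AnalyticOnNhd ℝ (tw a) Set.univ := by
  intro z _
  have h1 : (tw a : ℂ → ℂ) = fun z =>
    z * Complex.exp ((a * Complex.I) * ((z * conj z) * Complex.exp (1 + (-1) * (z * conj z)))) := by
    funext z; exact tw_apply' a z
  rw [h1]
  have h2 : AnalyticAt ℝ (fun z : ℂ => z * conj z) z := analyticAt_id.mul (conj_analytic z)
  have h3 : AnalyticAt ℝ (fun z : ℂ => Complex.exp (1 + (-1) * (z * conj z))) z :=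
    (cexp_analytic _).comp (analyticAt_const.add (analyticAt_const.mul h2))
  have h4 : AnalyticAt ℝ (fun z : ℂ => Complex.exp ((a * Complex.I) * ((z * conj z) *
      Complex.exp (1 + (-1) * (z * conj z))))) z :=
    (cexp_analytic _).comp (analyticAt_const.mul (h2.mul h3))
  exact analyticAt_id.mul h4

lemma prof_strict (z : ℂ) : HasStrictFDerivAt prof
    ((2 * (1 - ‖z‖ ^ 2) * Real.exp (1 - ‖z‖ ^ 2)) • innerSL ℝ z) z := by
  have h1 := hasStrictFDerivAt_norm_sq z
  have h2 : HasStrictDerivAt (fun s : ℝ => s * Real.exp (1 - s))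
      (1 * Real.exp (1 - ‖z‖ ^ 2) + ‖z‖ ^ 2 * (Real.exp (1 - ‖z‖ ^ 2) * (0 - 1))) (‖z‖ ^ 2) := by
    have h3 : HasStrictDerivAt (fun s : ℝ => 1 - s) (0 - 1) (‖z‖ ^ 2) :=
      (hasStrictDerivAt_const _ _).sub (hasStrictDerivAt_id _)
    exact (hasStrictDerivAt_id _).mul ((Real.hasStrictDerivAt_exp _).comp _ h3)
  have h4 := h2.comp_hasStrictFDerivAt z h1
  have h5 : (1 * Real.exp (1 - ‖z‖ ^ 2) + ‖z‖ ^ 2 * (Real.exp (1 - ‖z‖ ^ 2) * (0 - 1))) • 2 • (innerSL ℝ) z =
      (2 * (1 - ‖z‖ ^ 2) * Real.exp (1 - ‖z‖ ^ 2)) • innerSL ℝ z := by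
    rw [two_nsmul, ← two_smul ℝ, smul_smul]
    congr 1
    ring
  rw [h5] at h4
  exact h4

lemma prof_strict_zero : HasStrictFDerivAt prof (0 : ℂ →L[ℝ] ℝ) 0 := by
  have h := prof_strict 0
  simpa using h

lemma prof_strict_one : HasStrictFDerivAt prof (0 : ℂ →L[ℝ] ℝ) 1 := by
  have h := prof_strict 1
  simpa using h

/-- the derivative of the profile is bounded by `4 e / |z|` -/
lemma prof_deriv_bound (z v : ℂ) :
    ‖z‖ * |((2 * (1 - ‖z‖ ^ 2) * Real.exp (1 - ‖z‖ ^ 2)) • innerSL ℝ z) v| ≤ 4 * Real.exp 1 * ‖v‖ := by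
  simp only [FunLike.coe_smul, Pi.smul_apply, smul_eq_mul, abs_mul, innerSL_apply_apply]
  have h1 : |inner ℝ z v| ≤ ‖z‖ * ‖v‖ := abs_real_inner_le_norm z v
  have h2 : |Real.exp (1 - ‖z‖ ^ 2)| = Real.exp 1 * Real.exp (-‖z‖ ^ 2) := by
    rw [abs_of_pos (Real.exp_pos _), ← Real.exp_add]; ring_nf
  rw [h2]
  obtain ⟨s, hs⟩ : ∃ s : ℝ, s = ‖z‖ ^ 2 := ⟨_, rfl⟩
  have hs0 : 0 ≤ s := by rw [hs]; positivity
  have h3 : s * |1 - s| * Real.exp (-s) ≤ 2 := by
    have e1 : |1 - s| ≤ 1 + s := by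
      rw [abs_le]; constructor <;> linarith
    have e2 : s * (1 + s) ≤ 2 * Real.exp s := by
      have := Real.quadratic_le_exp_of_nonneg hs0
      nlinarith
    rw [Real.exp_neg, ← div_eq_mul_inv, div_le_iff₀ (Real.exp_pos s)]
    refine le_trans ?_ e2
    exact mul_le_mul_of_nonneg_left e1 hs0
  have h4 : 0 < Real.exp 1 := Real.exp_pos 1
  calc ‖z‖ * (|2| * |1 - ‖z‖ ^ 2| * (Real.exp 1 * Real.exp (-‖z‖ ^ 2)) * |inner ℝ z v|)
      ≤ ‖z‖ * (|2| * |1 - ‖z‖ ^ 2| * (Real.exp 1 * Real.exp (-‖z‖ ^ 2)) * (‖z‖ * ‖v‖)) := by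
        gcongr
    _ = 2 * Real.exp 1 * ‖v‖ * (s * |1 - s| * Real.exp (-s)) := by
        rw [hs, abs_two]; ring
    _ ≤ 2 * Real.exp 1 * ‖v‖ * 2 := by gcongr
    _ = 4 * Real.exp 1 * ‖v‖ := by ring

lemma tw_hasFDeriv (a : ℝ) (z : ℂ) : ∃ D : ℂ →L[ℝ] ℂ, HasFDerivAt (tw a) D z ∧
    ‖D‖ ≤ 1 + |a| * (4 * Real.exp 1) := by
  obtain ⟨P, hP⟩ : ∃ P : ℂ →L[ℝ] ℝ, P = (2 * (1 - ‖z‖ ^ 2) * Real.exp (1 - ‖z‖ ^ 2)) • innerSL ℝ z := ⟨_, rfl⟩
  have h1 : HasFDerivAt prof P z := by rw [hP]; exact (prof_strict z).hasFDerivAt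
  have hb : ∀ v, ‖z‖ * |P v| ≤ 4 * Real.exp 1 * ‖v‖ := by rw [hP]; exact prof_deriv_bound z
  have h2 : HasFDerivAt (fun w : ℂ => ((a * prof w : ℝ) : ℂ) * Complex.I)
      ((Complex.ofRealCLM.comp (a • P)).smulRight Complex.I) z := by
    have h3 : HasFDerivAt (fun w : ℂ => ((a * prof w : ℝ) : ℂ)) (Complex.ofRealCLM.comp (a • P)) z :=
      (Complex.ofRealCLM.hasFDerivAt).comp z (h1.const_mul a)
    exact h3.mul_const' Complex.I
  have h3 := h2.cexp
  have h4 : HasFDerivAt (tw a) (z • Complex.exp (((a * prof z : ℝ) : ℂ) * Complex.I) •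
      ((Complex.ofRealCLM.comp (a • P)).smulRight Complex.I) +
      Complex.exp (((a * prof z : ℝ) : ℂ) * Complex.I) • ContinuousLinearMap.id ℝ ℂ) z :=
    (hasFDerivAt_id (𝕜 := ℝ) z).mul h3
  refine ⟨_, h4, ?_⟩
  apply ContinuousLinearMap.opNorm_le_bound _ (by positivity)
  intro v
  simp only [FunLike.coe_add, Pi.add_apply, FunLike.coe_smul, Pi.smul_apply,
    ContinuousLinearMap.smulRight_apply, ContinuousLinearMap.comp_apply, smul_eq_mul,
    ContinuousLinearMap.id_apply, Complex.ofRealCLM_apply]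
  refine (norm_add_le _ _).trans ?_
  rw [norm_mul, norm_mul, norm_mul, norm_mul, Complex.norm_exp_ofReal_mul_I, Complex.norm_I, one_mul,
    one_mul, mul_one, Complex.norm_real, Real.norm_eq_abs, abs_mul]
  have h5 := hb v
  have h6 := abs_nonneg a
  nlinarith

/-- a Lipschitz constant of the twist -/
lemma tw_lip (a : ℝ) (x y : ℂ) : ‖tw a x - tw a y‖ ≤ (1 + |a| * (4 * Real.exp 1)) * ‖x - y‖ := by
  choose D hD hb using tw_hasFDeriv a
  exact convex_univ.norm_image_sub_le_of_norm_hasFDerivWithin_le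
    (f' := D) (fun z _ => (hD z).hasFDerivWithinAt) (fun z _ => hb z) (Set.mem_univ y) (Set.mem_univ x)

end Pool.Agent.Helper89.Plane
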