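import Mathlib

/-!
Surface groups, isotopies of plane homeomorphisms, winding numbers and the Euler number of an action
of a surface group on the plane by orientation-preserving homeomorphisms.
-/

set_option autoImplicit false

open scoped commutatorElement

namespace Pool.Agent.Helper89.Plane

/-- The relator `∏ [aᵢ, bᵢ]` (product over `i = 0, …, g - 1` in increasing order) of the standard
presentation of the fundamental group of the closed oriented surface of genus `g`. -/
def surfaceRelator (g : ℕ) : FreeGroup (Fin g ⊕ Fin g) :=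
  (List.ofFn fun i : Fin g => ⁅(FreeGroup.of (Sum.inl i) : FreeGroup (Fin g ⊕ Fin g)),
    (FreeGroup.of (Sum.inr i) : FreeGroup (Fin g ⊕ Fin g))⁆).prod

/-- The fundamental group of the closed oriented surface of genus `g`, by its standard presentation
`⟨a₀, b₀, …, a_{g-1}, b_{g-1} | [a₀, b₀] ⋯ [a_{g-1}, b_{g-1}]⟩`. -/
abbrev SurfaceGroup (g : ℕ) : Type := PresentedGroup {surfaceRelator g}

/-- The standard generator `aᵢ`. -/
def genA (g : ℕ) (i : Fin g) : SurfaceGroup g := PresentedGroup.of (Sum.inl i)

/-- The standard generator `bᵢ`. -/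
def genB (g : ℕ) (i : Fin g) : SurfaceGroup g := PresentedGroup.of (Sum.inr i)

/-- `H` is an isotopy (a path in the homeomorphism group of the plane) from the identity to `f`. -/
structure IsIsotopy (H : unitInterval → (ℂ ≃ₜ ℂ)) (f : ℂ ≃ₜ ℂ) : Prop where
  zero : H 0 = 1
  one : H 1 = f
  continuous : Continuous fun x : unitInterval × ℂ => H x.1 x.2
  continuous_symm : Continuous fun x : unitInterval × ℂ => (H x.1).symm x.2

/-- The path `c` avoids `0`, and a continuous determination of its argument grows by `2πn`
(for a closed path: its winding number around `0` is `n`). -/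
def HasWindingNumber (c : unitInterval → ℂ) (n : ℤ) : Prop :=
  ∃ θ : unitInterval → ℝ, Continuous θ ∧
    (∀ t, c t ≠ 0 ∧ c t = (‖c t‖ : ℂ) * Complex.exp (θ t * Complex.I)) ∧ θ 1 - θ 0 = 2 * Real.pi * n

/-- The action `ρ` of the genus `g` surface group on the plane has Euler number `e`: the images of the
standard generators are isotopic to the identity, and for every choice of isotopies `Aᵢ`, `Bᵢ` from the
identity to `ρ aᵢ`, `ρ bᵢ` the loop `t ↦ ∏ [Aᵢ t, Bᵢ t]` of homeomorphisms of the plane (which is the
element of `π₁(Homeo⁺(ℝ²)) = ℤ` obtained by evaluating the relator on lifts of the generators to the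
universal covering group) turns every ordered pair of distinct points `e` times around. -/
def HasEulerNumber {g : ℕ} (ρ : SurfaceGroup g →* (ℂ ≃ₜ ℂ)) (e : ℤ) : Prop :=
  (∀ i, (∃ A, IsIsotopy A (ρ (genA g i))) ∧ ∃ B, IsIsotopy B (ρ (genB g i))) ∧
  ∀ A B : Fin g → unitInterval → (ℂ ≃ₜ ℂ),
    (∀ i, IsIsotopy (A i) (ρ (genA g i))) → (∀ i, IsIsotopy (B i) (ρ (genB g i))) →
    ∀ p q : ℂ, p ≠ q →
      HasWindingNumber (fun t => (List.ofFn fun i : Fin g => ⁅A i t, B i t⁆).prod p -
        (List.ofFn fun i : Fin g => ⁅A i t, B i t⁆).prod q) e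

end Pool.Agent.Helper89.Plane
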