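import Pool.Agent.Helper89.Plane.Defs

/-!
Lifts of plane homeomorphisms: a homeomorphism `f` together with a function `L` on ordered pairs of
distinct points; for the lifts of interest `exp L (p, q) = (f p - f q) / (p - q)`.
-/

set_option autoImplicit false

open scoped Topology unitInterval commutatorElement
open Filter

namespace Pool.Agent.Helper89.Plane

/-- ordered pairs of distinct points -/
abbrev OD : Type := {x : ℂ × ℂ // x.1 ≠ x.2}

lemma OD.sub_ne (x : OD) : x.1.1 - x.1.2 ≠ 0 := sub_ne_zero.mpr x.2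

/-- the action on ordered pairs of distinct points -/
noncomputable def act (f : ℂ ≃ₜ ℂ) (x : OD) : OD := ⟨(f x.1.1, f x.1.2), fun h => x.2 (f.injective h)⟩

/-- a homeomorphism with a function on ordered pairs of distinct points -/
@[ext] structure LiftG where
  fst : ℂ ≃ₜ ℂ
  snd : OD → ℂ

namespace LiftG

noncomputable instance : Mul LiftG := ⟨fun a b => ⟨a.fst * b.fst, fun x => a.snd (act b.fst x) + b.snd x⟩⟩
noncomputable instance : One LiftG := ⟨⟨1, fun _ => 0⟩⟩
noncomputable instance : Inv LiftG := ⟨fun a => ⟨a.fst⁻¹, fun x => - a.snd (act a.fst⁻¹ x)⟩⟩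

lemma mul_fst (a b : LiftG) : (a * b).fst = a.fst * b.fst := rfl
lemma mul_snd (a b : LiftG) (x : OD) : (a * b).snd x = a.snd (act b.fst x) + b.snd x := rfl
lemma one_fst : (1 : LiftG).fst = 1 := rfl
lemma one_snd (x : OD) : (1 : LiftG).snd x = 0 := rfl
lemma inv_fst (a : LiftG) : (a⁻¹).fst = a.fst⁻¹ := rfl
lemma inv_snd (a : LiftG) (x : OD) : (a⁻¹).snd x = - a.snd (act a.fst⁻¹ x) := rfl

lemma act_inv_act (f : ℂ ≃ₜ ℂ) (x : OD) : act f⁻¹ (act f x) = x := by
  apply Subtype.ext
  simp [act]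

noncomputable instance : Group LiftG where
  mul_assoc a b c := by
    ext1
    · rfl
    · funext x
      simp only [mul_snd, mul_fst]
      rw [add_assoc]
      rfl
  one_mul a := by
    ext1
    · rfl
    · funext x
      simp only [mul_snd, one_snd, zero_add]
  mul_one a := by
    ext1
    · rfl
    · funext x
      simp only [mul_snd, one_snd, add_zero]
      rfl
  inv_mul_cancel a := by
    ext1
    · simp [mul_fst, inv_fst, one_fst]
    · funext x
      simp only [mul_snd, inv_snd, one_snd]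
      rw [act_inv_act, neg_add_cancel]

/-- the projection -/
noncomputable def pr : LiftG →* (ℂ ≃ₜ ℂ) where
  toFun := fst
  map_one' := rfl
  map_mul' _ _ := rfl

@[simp] lemma pr_apply (a : LiftG) : pr a = a.fst := rfl

/-- the central elements -/
noncomputable def zc (n : ℤ) : LiftG := ⟨1, fun _ => 2 * Real.pi * Complex.I * n⟩

lemma zc_central (n : ℤ) (a : LiftG) : zc n * a = a * zc n := by
  ext1
  · simp only [mul_fst, zc, one_mul, mul_one]
  · funext x
    simp only [mul_snd, zc]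
    rw [add_comm]
    rfl

lemma comm_central {G : Type*} [Group G] {z w a b : G} (hz : ∀ g, z * g = g * z) (hw : ∀ g, w * g = g * w) :
    ⁅z * a, w * b⁆ = ⁅a, b⁆ := by
  have hz' : ∀ g, z⁻¹ * g = g * z⁻¹ := fun g => by
    rw [inv_mul_eq_iff_eq_mul, ← mul_assoc, hz, mul_inv_cancel_right]
  have hw' : ∀ g, w⁻¹ * g = g * w⁻¹ := fun g => by
    rw [inv_mul_eq_iff_eq_mul, ← mul_assoc, hw, mul_inv_cancel_right]
  rw [commutatorElement_def, commutatorElement_def, mul_inv_rev, mul_inv_rev]
  calc z * a * (w * b) * (a⁻¹ * z⁻¹) * (b⁻¹ * w⁻¹)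
      = (z * a) * (w * (b * a⁻¹)) * ((z⁻¹ * b⁻¹) * w⁻¹) := by group
    _ = (z * a) * ((b * a⁻¹) * w) * ((b⁻¹ * z⁻¹) * w⁻¹) := by rw [hw, hz']
    _ = z * (a * (b * a⁻¹)) * (w * (b⁻¹ * z⁻¹)) * w⁻¹ := by group
    _ = (a * (b * a⁻¹)) * z * ((b⁻¹ * z⁻¹) * w) * w⁻¹ := by rw [hz, hw]
    _ = (a * (b * a⁻¹)) * (z * (b⁻¹ * z⁻¹)) := by group
    _ = (a * (b * a⁻¹)) * (b⁻¹ * z⁻¹ * z) := by rw [hz]
    _ = a * b * a⁻¹ * b⁻¹ := by group

end LiftG

open LiftG

/-- the quotient attached to a homeomorphism -/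
noncomputable def quo (f : ℂ ≃ₜ ℂ) (x : OD) : ℂ := (f x.1.1 - f x.1.2) / (x.1.1 - x.1.2)

lemma quo_ne (f : ℂ ≃ₜ ℂ) (x : OD) : quo f x ≠ 0 :=
  div_ne_zero (sub_ne_zero.mpr fun h => x.2 (f.injective h)) x.sub_ne

lemma quo_one (x : OD) : quo 1 x = 1 := by
  simp only [quo, Homeomorph.one_apply]
  exact div_self x.sub_ne

lemma quo_mul (f g : ℂ ≃ₜ ℂ) (x : OD) : quo (f * g) x = quo f (act g x) * quo g x := by
  have h1 := (act g x).sub_ne
  simp only [quo, Homeomorph.mul_apply, act] at h1 ⊢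
  rw [div_mul_div_cancel₀ h1]

/-- paths of lifts starting at the identity -/
def PathG : Subgroup (I → LiftG) where
  carrier := {u | u 0 = 1 ∧ Continuous (fun x : I × ℂ => (u x.1).fst x.2) ∧
    Continuous (fun x : I × ℂ => (u x.1).fst.symm x.2) ∧
    Continuous (fun x : I × OD => (u x.1).snd x.2) ∧
    ∀ t x, Complex.exp ((u t).snd x) = quo (u t).fst x}
  mul_mem' := by
    rintro u v ⟨hu0, hu1, hu2, hu3, hu4⟩ ⟨hv0, hv1, hv2, hv3, hv4⟩
    refine ⟨?_, ?_, ?_, ?_, ?_⟩
    · rw [Pi.mul_apply, hu0, hv0, one_mul]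
    · have : (fun x : I × ℂ => ((u * v) x.1).fst x.2) = fun x : I × ℂ => (u x.1).fst ((v x.1).fst x.2) := rfl
      rw [this]
      exact hu1.comp (continuous_fst.prodMk hv1)
    · have : (fun x : I × ℂ => ((u * v) x.1).fst.symm x.2) = fun x : I × ℂ => (v x.1).fst.symm ((u x.1).fst.symm x.2) := rfl
      rw [this]
      exact hv2.comp (continuous_fst.prodMk hu2)
    · have : (fun x : I × OD => ((u * v) x.1).snd x.2) = fun x : I × OD => (u x.1).snd (act (v x.1).fst x.2) + (v x.1).snd x.2 := rfl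
      rw [this]
      have h1 : Continuous fun x : I × OD => act (v x.1).fst x.2 := by
        refine Continuous.subtype_mk ?_ _
        exact (hv1.comp (continuous_fst.prodMk (continuous_fst.comp (continuous_subtype_val.comp continuous_snd)))).prodMk
          (hv1.comp (continuous_fst.prodMk (continuous_snd.comp (continuous_subtype_val.comp continuous_snd))))
      have h2 : Continuous fun x : I × OD => (u x.1).snd (act (v x.1).fst x.2) :=
        hu3.comp (continuous_fst.prodMk h1)
      exact h2.add hv3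
    · intro t x
      rw [Pi.mul_apply, mul_snd, mul_fst, Complex.exp_add, hu4, hv4, quo_mul]
  one_mem' := by
    refine ⟨rfl, ?_, ?_, ?_, ?_⟩
    · exact continuous_snd
    · exact continuous_snd
    · exact continuous_const
    · intro t x
      simp only [Pi.one_apply, one_snd, one_fst, Complex.exp_zero, quo_one]
  inv_mem' := by
    rintro u ⟨hu0, hu1, hu2, hu3, hu4⟩
    refine ⟨?_, hu2, ?_, ?_, ?_⟩
    · rw [Pi.inv_apply, hu0, inv_one]
    · exact hu1
    · have : (fun x : I × OD => (u⁻¹ x.1).snd x.2) = fun x : I × OD => - (u x.1).snd (act (u x.1).fst⁻¹ x.2) := rfl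
      rw [this]
      have h1 : Continuous fun x : I × OD => act (u x.1).fst⁻¹ x.2 := by
        refine Continuous.subtype_mk ?_ _
        exact (hu2.comp (continuous_fst.prodMk (continuous_fst.comp (continuous_subtype_val.comp continuous_snd)))).prodMk
          (hu2.comp (continuous_fst.prodMk (continuous_snd.comp (continuous_subtype_val.comp continuous_snd))))
      have h2 : Continuous fun x : I × OD => (u x.1).snd (act (u x.1).fst⁻¹ x.2) :=
        hu3.comp (continuous_fst.prodMk h1)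
      exact h2.neg
    · intro t x
      rw [Pi.inv_apply, inv_snd, inv_fst, Complex.exp_neg, hu4]
      have h1 := quo_mul (u t).fst (u t).fst⁻¹ x
      rw [mul_inv_cancel, quo_one] at h1
      exact (eq_inv_of_mul_eq_one_right h1.symm).symm

lemma PathG_iff (u : I → LiftG) : u ∈ PathG ↔ u 0 = 1 ∧ Continuous (fun x : I × ℂ => (u x.1).fst x.2) ∧
    Continuous (fun x : I × ℂ => (u x.1).fst.symm x.2) ∧
    Continuous (fun x : I × OD => (u x.1).snd x.2) ∧
    ∀ t x, Complex.exp ((u t).snd x) = quo (u t).fst x := Iff.rfl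

/-- a path of lifts projects to an isotopy -/
lemma PathG.isIsotopy {u : I → LiftG} (hu : u ∈ PathG) {f : ℂ ≃ₜ ℂ} (hf : (u 1).fst = f) :
    IsIsotopy (fun t => (u t).fst) f := by
  obtain ⟨hu0, hu1, hu2, hu3, hu4⟩ := hu
  exact ⟨by simp only [hu0]; rfl, hf, hu1, hu2⟩

/-- isotopies lift -/
lemma IsIsotopy.exists_lift {H : I → (ℂ ≃ₜ ℂ)} {f : ℂ ≃ₜ ℂ} (h : IsIsotopy H f) :
    ∃ u ∈ PathG, ∀ t, (u t).fst = H t := by
  let Q : C(I × OD, {z : ℂ // z ≠ 0}) := ⟨fun x => ⟨quo (H x.1) x.2, quo_ne _ _⟩, by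
    refine Continuous.subtype_mk ?_ _
    unfold quo
    refine Continuous.div ?_ ?_ (fun x => x.2.sub_ne)
    · exact (h.continuous.comp (continuous_fst.prodMk (continuous_fst.comp (continuous_subtype_val.comp continuous_snd)))).sub
        (h.continuous.comp (continuous_fst.prodMk (continuous_snd.comp (continuous_subtype_val.comp continuous_snd))))
    · exact (continuous_fst.comp (continuous_subtype_val.comp continuous_snd)).sub
        (continuous_snd.comp (continuous_subtype_val.comp continuous_snd))⟩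
  let F : C(OD, ℂ) := ⟨fun _ => 0, continuous_const⟩
  have h0 : ∀ x : OD, Q (0, x) = (⟨Complex.exp (F x), Complex.exp_ne_zero _⟩ : {z : ℂ // z ≠ 0}) := by
    intro x
    apply Subtype.ext
    show quo (H 0) x = Complex.exp 0
    rw [h.zero, quo_one, Complex.exp_zero]
  let L := Complex.isCoveringMap_exp.liftHomotopy Q F h0
  have hL1 : ∀ t x, Complex.exp (L (t, x)) = quo (H t) x := by
    intro t x
    have := congrFun (Complex.isCoveringMap_exp.liftHomotopy_lifts Q F h0) (t, x)
    exact congrArg Subtype.val this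
  have hL2 : ∀ x, L (0, x) = 0 := fun x => Complex.isCoveringMap_exp.liftHomotopy_zero Q F h0 x
  refine ⟨fun t => ⟨H t, fun x => L (t, x)⟩, ⟨?_, h.continuous, h.continuous_symm, L.continuous, hL1⟩, fun t => rfl⟩
  ext1
  · exact h.zero
  · funext x
    exact hL2 x

/-- uniqueness of logarithms -/
lemma log_unique {X : Type*} [TopologicalSpace X] [PreconnectedSpace X] {d₁ d₂ : X → ℂ}
    (h1 : Continuous d₁) (h2 : Continuous d₂) (h : ∀ x, Complex.exp (d₁ x) = Complex.exp (d₂ x)) (x₀ : X)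
    (h0 : d₁ x₀ = d₂ x₀) : d₁ = d₂ := by
  refine Complex.isCoveringMap_exp.eq_of_comp_eq h1 h2 ?_ x₀ h0
  funext x
  exact Subtype.ext (h x)

lemma log_const {X : Type*} [TopologicalSpace X] [PreconnectedSpace X] {d₁ d₂ : X → ℂ}
    (h1 : Continuous d₁) (h2 : Continuous d₂) (h : ∀ x, Complex.exp (d₁ x) = Complex.exp (d₂ x)) (x₀ : X) :
    ∃ n : ℤ, ∀ x, d₁ x = 2 * Real.pi * Complex.I * n + d₂ x := by
  obtain ⟨n, hn⟩ := Complex.exp_eq_exp_iff_exists_int.mp (h x₀)
  refine ⟨n, fun x => ?_⟩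
  have h3 : Continuous fun x => 2 * Real.pi * Complex.I * n + d₂ x := continuous_const.add h2
  have h4 := log_unique h1 h3 (fun x => ?_) x₀ (by rw [hn]; ring)
  · exact congrFun h4 x
  · rw [h x]
    rw [Complex.exp_eq_exp_iff_exists_int]
    exact ⟨-n, by push_cast; ring⟩

/-- the pairs of distinct points of a convex disc form a connected set -/
lemma od_ball (y : ℂ) {δ : ℝ} (hδ : 0 < δ) :
    IsPreconnected {x : OD | x.1.1 ∈ Metric.ball y δ ∧ x.1.2 ∈ Metric.ball y δ} := by
  have h1 : IsPreconnected ((Set.univ : Set ℂ) ×ˢ ({0}ᶜ : Set ℂ)) :=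
    isPreconnected_univ.prod (isConnected_compl_singleton_of_one_lt_rank (by simp) 0).isPreconnected
  let b := OpenPartialHomeomorph.univBall y δ
  have hbs : b.source = Set.univ := OpenPartialHomeomorph.univBall_source y δ
  have hbt : b.target = Metric.ball y δ := OpenPartialHomeomorph.univBall_target y hδ
  have hbc : Continuous b := OpenPartialHomeomorph.continuous_univBall y δ
  have hbinj : Function.Injective b := by
    intro p q hpq
    exact b.injOn (by rw [hbs]; trivial) (by rw [hbs]; trivial) hpq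
  have h2 : IsPreconnected ((fun x : ℂ × ℂ => (b x.1, b (x.1 + x.2))) '' ((Set.univ : Set ℂ) ×ˢ ({0}ᶜ : Set ℂ))) := by
    refine h1.image _ (Continuous.continuousOn ?_)
    exact (hbc.comp continuous_fst).prodMk (hbc.comp (continuous_fst.add continuous_snd))
  have h3 : ((fun x : ℂ × ℂ => (b x.1, b (x.1 + x.2))) '' ((Set.univ : Set ℂ) ×ˢ ({0}ᶜ : Set ℂ))) =
      Subtype.val '' {x : OD | x.1.1 ∈ Metric.ball y δ ∧ x.1.2 ∈ Metric.ball y δ} := by
    ext ⟨p, q⟩
    constructor
    · rintro ⟨⟨u, v⟩, ⟨-, hv⟩, he⟩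
      simp only [Prod.mk.injEq] at he
      have hv' : v ≠ 0 := hv
      refine ⟨⟨(p, q), ?_⟩, ⟨?_, ?_⟩, rfl⟩
      · rw [← he.1, ← he.2]
        intro hc
        have := hbinj hc
        apply hv'
        simpa using this
      · show p ∈ Metric.ball y δ
        rw [← he.1, ← hbt]
        exact b.map_source (by rw [hbs]; trivial)
      · show q ∈ Metric.ball y δ
        rw [← he.2, ← hbt]
        exact b.map_source (by rw [hbs]; trivial)
    · rintro ⟨⟨⟨p', q'⟩, hne⟩, ⟨hp, hq⟩, he⟩
      simp only [Prod.mk.injEq] at he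
      obtain ⟨rfl, rfl⟩ := he
      have hp' : p' ∈ b.target := by rw [hbt]; exact hp
      have hq' : q' ∈ b.target := by rw [hbt]; exact hq
      refine ⟨(b.symm p', b.symm q' - b.symm p'), ⟨trivial, ?_⟩, ?_⟩
      · intro hc
        apply hne
        have h5 : b.symm q' - b.symm p' = 0 := hc
        have h6 : b.symm q' = b.symm p' := sub_eq_zero.mp h5
        show p' = q'
        rw [← b.right_inv hp', ← b.right_inv hq', h6]
      · simp only [Prod.mk.injEq]
        refine ⟨b.right_inv hp', ?_⟩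
        rw [add_sub_cancel]
        exact b.right_inv hq'
  rw [h3] at h2
  exact (Topology.IsInducing.subtypeVal.isPreconnected_image).mp h2

instance : PreconnectedSpace OD := by
  constructor
  have h1 : IsPreconnected ((Set.univ : Set ℂ) ×ˢ ({0}ᶜ : Set ℂ)) :=
    isPreconnected_univ.prod (isConnected_compl_singleton_of_one_lt_rank (by simp) 0).isPreconnected
  have h2 : IsPreconnected ((fun x : ℂ × ℂ => (x.1, x.1 + x.2)) '' ((Set.univ : Set ℂ) ×ˢ ({0}ᶜ : Set ℂ))) :=
    h1.image _ (Continuous.continuousOn (by fun_prop))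
  have h3 : ((fun x : ℂ × ℂ => (x.1, x.1 + x.2)) '' ((Set.univ : Set ℂ) ×ˢ ({0}ᶜ : Set ℂ))) =
      Subtype.val '' (Set.univ : Set OD) := by
    ext ⟨p, q⟩
    constructor
    · rintro ⟨⟨u, v⟩, ⟨-, hv⟩, he⟩
      simp only [Prod.mk.injEq] at he
      have hv' : v ≠ 0 := hv
      refine ⟨⟨(p, q), ?_⟩, trivial, rfl⟩
      rw [← he.1, ← he.2]
      intro hc
      apply hv'
      simpa using hc
    · rintro ⟨⟨⟨p', q'⟩, hne⟩, -, he⟩
      simp only [Prod.mk.injEq] at he
      obtain ⟨rfl, rfl⟩ := he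
      refine ⟨(p', q' - p'), ⟨trivial, ?_⟩, ?_⟩
      · intro hc
        apply hne
        have h5 : q' - p' = 0 := hc
        exact (sub_eq_zero.mp h5).symm
      · simp
  rw [h3] at h2
  exact (Topology.IsInducing.subtypeVal.isPreconnected_image).mp h2

instance : Nonempty OD := ⟨⟨(0, 1), zero_ne_one⟩⟩

/-- two lifts of the same homeomorphism differ by a central element -/
lemma PathG.central {u v : I → LiftG} (hu : u ∈ PathG) (hv : v ∈ PathG) (h : (u 1).fst = (v 1).fst) :
    ∃ n : ℤ, u 1 = zc n * v 1 := by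
  obtain ⟨hu0, hu1, hu2, hu3, hu4⟩ := hu
  obtain ⟨hv0, hv1, hv2, hv3, hv4⟩ := hv
  have h1 : Continuous (u 1).snd := hu3.comp (Continuous.prodMk_right (1 : I))
  have h2 : Continuous (v 1).snd := hv3.comp (Continuous.prodMk_right (1 : I))
  obtain ⟨n, hn⟩ := log_const h1 h2 (fun x => by rw [hu4, hv4, h]) (Classical.arbitrary OD)
  refine ⟨n, ?_⟩
  ext1
  · simp only [mul_fst, zc, one_mul]; exact h
  · funext x
    rw [hn x]
    rfl

/-- reading off the winding number -/
lemma PathG.winding {w : I → LiftG} (hw : w ∈ PathG) {e : ℤ} (h : w 1 = zc e) (p q : ℂ) (hpq : p ≠ q) :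
    HasWindingNumber (fun t => (w t).fst p - (w t).fst q) e := by
  obtain ⟨hw0, hw1, hw2, hw3, hw4⟩ := hw
  let x : OD := ⟨(p, q), hpq⟩
  refine ⟨fun t => Complex.arg (p - q) + ((w t).snd x).im, ?_, ?_, ?_⟩
  · refine continuous_const.add (Complex.continuous_im.comp ?_)
    exact hw3.comp (Continuous.prodMk_left x)
  · intro t
    have hne : (w t).fst p - (w t).fst q ≠ 0 := sub_ne_zero.mpr fun h => hpq ((w t).fst.injective h)
    refine ⟨hne, ?_⟩
    have h1 : (w t).fst p - (w t).fst q = (p - q) * Complex.exp ((w t).snd x) := by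
      rw [hw4 t x]
      simp only [quo]
      show _ = (p - q) * (((w t).fst p - (w t).fst q) / (p - q))
      rw [mul_div_cancel₀ _ (sub_ne_zero.mpr hpq)]
    simp only []
    rw [h1, norm_mul, Complex.norm_exp]
    obtain ⟨L, hL⟩ : ∃ L : ℂ, L = (w t).snd x := ⟨_, rfl⟩
    rw [← hL]
    have h2 : ((Complex.arg (p - q) + L.im : ℝ) : ℂ) * Complex.I = (Complex.arg (p - q) : ℂ) * Complex.I + (L.im : ℂ) * Complex.I := by
      push_cast; ring
    rw [h2, Complex.exp_add]
    have h3 : ((‖p - q‖ * Real.exp L.re : ℝ) : ℂ) * (Complex.exp ((Complex.arg (p - q) : ℂ) * Complex.I) * Complex.exp ((L.im : ℂ) * Complex.I)) =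
      (‖p - q‖ * Complex.exp ((Complex.arg (p - q) : ℂ) * Complex.I)) * (Complex.exp (L.re : ℂ) * Complex.exp ((L.im : ℂ) * Complex.I)) := by
      push_cast; ring
    rw [h3, ← Complex.exp_add, Complex.re_add_im, Complex.norm_mul_exp_arg_mul_I]
  · show (Complex.arg (p - q) + ((w 1).snd x).im) - (Complex.arg (p - q) + ((w 0).snd x).im) = _
    rw [hw0, h]
    simp only [one_snd, zc]
    simp

end Pool.Agent.Helper89.Plane
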