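import Pool.Agent.Helper89.Plane.Gmap
import Pool.Agent.Helper89.Plane.Lift

/-!
Limits of lifts along the diagonal, and the isotopies used in the construction.
-/

set_option autoImplicit false

open scoped Topology unitInterval commutatorElement
open Filter

namespace Pool.Agent.Helper89.Plane

open LiftG

/-- the filter of pairs of distinct points converging to `(y, y)` -/
noncomputable def dg (y : ℂ) : Filter OD := comap Subtype.val (𝓝 (y, y))

/-- the lift `a` has limit `c` at the diagonal point `(y, y)` -/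
def DL (a : LiftG) (y c : ℂ) : Prop := Tendsto a.snd (dg y) (𝓝 c)

instance dg_neBot (y : ℂ) : (dg y).NeBot := by
  unfold dg
  rw [comap_neBot_iff]
  intro s hs
  rw [Metric.mem_nhds_iff] at hs
  obtain ⟨ε, hε, hs⟩ := hs
  refine ⟨⟨(y, y + (ε / 2 : ℝ)), ?_⟩, hs ?_⟩
  · intro h
    have h1 : ((ε / 2 : ℝ) : ℂ) = 0 := by
      have h2 : y = y + ((ε / 2 : ℝ) : ℂ) := h
      have h3 := congrArg (fun z => z - y) h2
      simp only [sub_self, add_sub_cancel_left] at h3
      exact h3.symm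
    have h2 : ε / 2 = 0 := by exact_mod_cast h1
    linarith
  · rw [Metric.mem_ball, Prod.dist_eq, max_lt_iff]
    refine ⟨by simpa using hε, ?_⟩
    simp only [dist_self_add_left]
    rw [Complex.norm_real, Real.norm_eq_abs, abs_of_pos (half_pos hε)]
    exact half_lt_self hε

lemma act_tendsto (f : ℂ ≃ₜ ℂ) (y : ℂ) : Tendsto (act f) (dg y) (dg (f y)) := by
  unfold dg
  rw [tendsto_comap_iff]
  have h1 : (Subtype.val ∘ act f : OD → ℂ × ℂ) = (fun x : ℂ × ℂ => (f x.1, f x.2)) ∘ Subtype.val := rfl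
  rw [h1]
  have h2 : Continuous (fun x : ℂ × ℂ => (f x.1, f x.2)) :=
    (f.continuous.comp continuous_fst).prodMk (f.continuous.comp continuous_snd)
  exact (h2.tendsto (y, y)).comp tendsto_comap

lemma DL.mul {a b : LiftG} {y c d : ℂ} (ha : DL a (b.fst y) c) (hb : DL b y d) : DL (a * b) y (c + d) := by
  have h1 : (a * b).snd = fun x => a.snd (act b.fst x) + b.snd x := rfl
  unfold DL
  rw [h1]
  exact (ha.comp (act_tendsto b.fst y)).add hb

lemma DL.inv {a : LiftG} {y c : ℂ} (ha : DL a y c) : DL a⁻¹ (a.fst y) (-c) := by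
  have h1 : (a⁻¹).snd = fun x => - a.snd (act a.fst⁻¹ x) := rfl
  unfold DL
  rw [h1]
  have h2 := act_tendsto a.fst⁻¹ (a.fst y)
  have h3 : (a.fst⁻¹) (a.fst y) = y := by simp
  rw [h3] at h2
  exact (ha.comp h2).neg

lemma DL.unique {a : LiftG} {y c d : ℂ} (hc : DL a y c) (hd : DL a y d) : c = d :=
  tendsto_nhds_unique hc hd

lemma DL_zc (n : ℤ) (y : ℂ) : DL (zc n) y (2 * Real.pi * Complex.I * n) := tendsto_const_nhds

/-- strict differentiability in terms of the quotients -/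
lemma quo_tendsto {f : ℂ ≃ₜ ℂ} {y c : ℂ} (h : HasStrictFDerivAt f (c • ContinuousLinearMap.id ℝ ℂ) y) :
    Tendsto (quo f) (dg y) (𝓝 c) := by
  have h1 := h.isLittleO
  rw [Asymptotics.isLittleO_iff] at h1
  rw [Metric.tendsto_nhds]
  intro ε hε
  have h2 := h1 (half_pos hε)
  unfold dg
  rw [eventually_comap]
  filter_upwards [h2] with z hz
  rintro ⟨x, hx⟩ rfl
  simp only at hz
  have hne : x.1 - x.2 ≠ 0 := sub_ne_zero.mpr hx
  rw [dist_eq_norm]
  have h3 : quo f ⟨x, hx⟩ - c = (f x.1 - f x.2 - c * (x.1 - x.2)) / (x.1 - x.2) := by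
    simp only [quo]
    field_simp
  rw [h3, norm_div, div_lt_iff₀ (norm_pos_iff.mpr hne)]
  have h4 : f x.1 - f x.2 - (c • ContinuousLinearMap.id ℝ ℂ) (x.1 - x.2) = f x.1 - f x.2 - c * (x.1 - x.2) := by
    simp
  rw [h4] at hz
  have h5 : 0 < ‖x.1 - x.2‖ := norm_pos_iff.mpr hne
  nlinarith

lemma near_one {w : ℂ} (h : ‖w - 1‖ < 1) : w ∈ Complex.slitPlane := by
  have := Complex.mem_slitPlane_of_norm_lt_one h
  simpa using this

/-- existence of limits at points with derivative the identity -/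
lemma exists_DL {a : LiftG} {y : ℂ} (h1 : Continuous a.snd) (h2 : ∀ x, Complex.exp (a.snd x) = quo a.fst x)
    (h3 : HasStrictFDerivAt a.fst (ContinuousLinearMap.id ℝ ℂ) y) : ∃ c, DL a y c := by
  have h4 : Tendsto (quo a.fst) (dg y) (𝓝 1) := quo_tendsto (by rw [one_smul]; exact h3)
  have h5 : ∀ᶠ x in dg y, ‖quo a.fst x - 1‖ < 1 := by
    have := Metric.tendsto_nhds.mp h4 1 one_pos
    simpa [dist_eq_norm] using this
  unfold dg at h5
  rw [eventually_comap, Metric.eventually_nhds_iff] at h5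
  obtain ⟨δ, hδ, h5⟩ := h5
  let S : Set OD := {x : OD | x.1.1 ∈ Metric.ball y δ ∧ x.1.2 ∈ Metric.ball y δ}
  have hS : IsPreconnected S := od_ball y hδ
  have hSq : ∀ x ∈ S, ‖quo a.fst x - 1‖ < 1 := by
    intro x hx
    refine h5 (y := x.1) ?_ x rfl
    rw [Prod.dist_eq, max_lt_iff]
    exact hx
  have : PreconnectedSpace S := isPreconnected_iff_preconnectedSpace.mp hS
  have hquo : Continuous (quo a.fst) := by
    unfold quo
    refine Continuous.div ?_ ?_ (fun x => x.sub_ne)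
    · exact (a.fst.continuous.comp (continuous_fst.comp continuous_subtype_val)).sub
        (a.fst.continuous.comp (continuous_snd.comp continuous_subtype_val))
    · exact (continuous_fst.comp continuous_subtype_val).sub (continuous_snd.comp continuous_subtype_val)
  have hSmem : S ∈ dg y := by
    unfold dg
    rw [mem_comap]
    refine ⟨Metric.ball y δ ×ˢ Metric.ball y δ, prod_mem_nhds (Metric.ball_mem_nhds y hδ) (Metric.ball_mem_nhds y hδ), ?_⟩
    intro x hx
    exact hx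
  obtain ⟨x₀, hx₀⟩ : S.Nonempty := (dg y).nonempty_of_mem hSmem
  obtain ⟨n, hn⟩ := log_const (X := S) (d₁ := fun x => a.snd x) (d₂ := fun x => Complex.log (quo a.fst x))
    (h1.comp continuous_subtype_val)
    (by
      refine Continuous.clog (hquo.comp continuous_subtype_val) fun x => ?_
      exact near_one (hSq x.1 x.2))
    (fun x => by rw [h2, Complex.exp_log (quo_ne _ _)]) ⟨x₀, hx₀⟩
  refine ⟨2 * Real.pi * Complex.I * n + Complex.log 1, ?_⟩
  unfold DL
  have h6 : Tendsto (fun x => 2 * Real.pi * Complex.I * n + Complex.log (quo a.fst x)) (dg y)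
      (𝓝 (2 * Real.pi * Complex.I * n + Complex.log 1)) :=
    tendsto_const_nhds.add (h4.clog (by simp))
  refine h6.congr' ?_
  filter_upwards [hSmem] with x hx
  exact (hn ⟨x, hx⟩).symm

/-! ### specific isotopies -/

/-- lifts of translations -/
noncomputable def trP (c : ℂ) (t : I) : LiftG := ⟨tr ((t : ℝ) * c), fun _ => 0⟩

lemma trP_mem (c : ℂ) : trP c ∈ PathG := by
  refine ⟨?_, ?_, ?_, ?_, ?_⟩
  · ext1
    · show tr (((0 : I) : ℝ) * c) = 1
      rw [← tr_zero]; simp
    · rfl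
  · show Continuous fun x : I × ℂ => x.2 + ((x.1 : ℝ) : ℂ) * c
    fun_prop
  · have : (fun x : I × ℂ => (trP c x.1).fst.symm x.2) = fun x : I × ℂ => x.2 - ((x.1 : ℝ) : ℂ) * c := by
      funext x
      exact tr_symm_apply _ _
    rw [this]
    fun_prop
  · exact continuous_const
  · intro t x
    show Complex.exp 0 = quo (tr ((t : ℝ) * c)) x
    rw [Complex.exp_zero, quo, tr_apply, tr_apply, add_sub_add_right_eq_sub]
    exact (div_self x.sub_ne).symm

lemma trP_one (c : ℂ) : trP c 1 = ⟨tr c, fun _ => 0⟩ := by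
  ext1
  · show tr (((1 : I) : ℝ) * c) = tr c
    simp
  · rfl

/-- lifts of dilations -/
noncomputable def scP (s : ℝ) (t : I) : LiftG := ⟨sc ((t : ℝ) * s), fun _ => (((t : ℝ) * s : ℝ) : ℂ)⟩

lemma scP_mem (s : ℝ) : scP s ∈ PathG := by
  refine ⟨?_, ?_, ?_, ?_, ?_⟩
  · ext1
    · show sc (((0 : I) : ℝ) * s) = 1
      rw [← sc_zero]; simp
    · funext x
      show (((((0 : I) : ℝ)) * s : ℝ) : ℂ) = 0
      simp
  · show Continuous fun x : I × ℂ => Complex.exp ((((x.1 : ℝ) * s : ℝ) : ℂ)) * x.2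
    fun_prop
  · show Continuous fun x : I × ℂ => Complex.exp (-(((x.1 : ℝ) * s : ℝ) : ℂ)) * x.2
    fun_prop
  · show Continuous fun x : I × OD => ((((x.1 : ℝ) * s : ℝ) : ℂ))
    fun_prop
  · intro t x
    show Complex.exp ((((t : ℝ) * s : ℝ) : ℂ)) = quo (sc ((t : ℝ) * s)) x
    rw [quo, sc_apply, sc_apply, ← mul_sub, mul_div_cancel_right₀ _ x.sub_ne]

lemma scP_one (s : ℝ) : scP s 1 = ⟨sc s, fun _ => (s : ℂ)⟩ := by
  ext1
  · show sc (((1 : I) : ℝ) * s) = sc s
    simp
  · funext x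
    show (((((1 : I) : ℝ)) * s : ℝ) : ℂ) = s
    simp

lemma tw_isotopy (a : ℝ) : IsIsotopy (fun t : I => tw ((t : ℝ) * a)) (tw a) := by
  refine ⟨?_, ?_, ?_, ?_⟩
  · show tw (((0 : I) : ℝ) * a) = 1
    rw [← tw_zero]; simp
  · show tw (((1 : I) : ℝ) * a) = tw a
    simp
  · show Continuous fun x : I × ℂ => x.2 * Complex.exp ((((x.1 : ℝ) * a) * prof x.2 : ℝ) * Complex.I)
    unfold prof
    fun_prop
  · show Continuous fun x : I × ℂ => x.2 * Complex.exp ((-((x.1 : ℝ) * a) * prof x.2 : ℝ) * Complex.I)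
    unfold prof
    fun_prop

/-- the limit of the lift of the twist -/
lemma tw_DL {a : ℝ} {u : I → LiftG} (hu : u ∈ PathG) (hf : ∀ t, (u t).fst = tw ((t : ℝ) * a)) {y : ℂ}
    (hy : HasStrictFDerivAt prof (0 : ℂ →L[ℝ] ℝ) y) : DL (u 1) y ((a * prof y : ℝ) * Complex.I) := by
  obtain ⟨hu0, hu1, hu2, hu3, hu4⟩ := hu
  -- the rotated quotient tends to `1`, uniformly in `t`
  obtain ⟨R, hR⟩ : ∃ R : I → OD → ℂ, R = fun (t : I) x => quo (tw ((t : ℝ) * a)) x *
      Complex.exp (-((((t : ℝ) * a) * prof y : ℝ) * Complex.I)) := ⟨_, rfl⟩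
  have hlim : ∀ ε > 0, ∀ᶠ x in dg y, ∀ t, ‖R t x - 1‖ < ε := by
    intro ε hε
    obtain ⟨C, hC⟩ : ∃ C : ℝ, C = |a| * (‖y‖ + 2) + 1 := ⟨_, rfl⟩
    have hC0 : 0 < C := by rw [hC]; positivity
    obtain ⟨η, hη⟩ : ∃ η : ℝ, η = ε / (2 * C) := ⟨_, rfl⟩
    have hη0 : 0 < η := by rw [hη]; positivity
    have h1 := hy.isLittleO
    rw [Asymptotics.isLittleO_iff] at h1
    have h2 := h1 hη0
    have h3 : ∀ᶠ z : ℂ × ℂ in 𝓝 (y, y), ‖z.1‖ < ‖y‖ + 1 :=
      (continuous_fst.norm.tendsto (y, y)).eventually (gt_mem_nhds (by simp))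
    have h4 : ∀ᶠ z : ℂ × ℂ in 𝓝 (y, y), |prof z.2 - prof y| < η := by
      have h5 : ContinuousAt prof y := hy.continuousAt
      have h6 : Tendsto (fun z : ℂ × ℂ => prof z.2 - prof y) (𝓝 (y, y)) (𝓝 (prof y - prof y)) := by
        refine Tendsto.sub ?_ tendsto_const_nhds
        exact h5.tendsto.comp (continuous_snd.tendsto (y, y))
      rw [sub_self] at h6
      have h7 := (Metric.tendsto_nhds.mp h6) η hη0
      simpa [Real.dist_eq] using h7
    unfold dg
    rw [eventually_comap]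
    filter_upwards [h2, h3, h4] with z hz1 hz2 hz3
    rintro ⟨⟨p, q⟩, hx⟩ rfl t
    simp only at hz1 hz2 hz3 hx
    have hne : p - q ≠ 0 := sub_ne_zero.mpr hx
    have hpos : 0 < ‖p - q‖ := norm_pos_iff.mpr hne
    simp only [FunLike.coe_zero, Pi.zero_apply, sub_zero, Real.norm_eq_abs] at hz1
    obtain ⟨b, hb⟩ : ∃ b : ℝ, b = (t : ℝ) * a := ⟨_, rfl⟩
    have hba : |b| ≤ |a| := by
      rw [hb, abs_mul, abs_of_nonneg t.2.1]
      exact mul_le_of_le_one_left (abs_nonneg a) t.2.2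
    have hexp : ∀ u v : ℝ, ‖Complex.exp ((u : ℂ) * Complex.I) - Complex.exp ((v : ℂ) * Complex.I)‖ ≤ |u - v| := by
      intro u v
      have e1 : Complex.exp ((u : ℂ) * Complex.I) - Complex.exp ((v : ℂ) * Complex.I) =
          Complex.exp ((v : ℂ) * Complex.I) * (Complex.exp (Complex.I * ((u - v : ℝ) : ℂ)) - 1) := by
        rw [mul_sub, ← Complex.exp_add, mul_one]
        congr 2
        push_cast; ring
      rw [e1, norm_mul, Complex.norm_exp_ofReal_mul_I, one_mul]
      have := Real.norm_exp_I_mul_ofReal_sub_one_le (x := u - v)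
      simpa using this
    have hRt : R t ⟨(p, q), hx⟩ - 1 = (p * (Complex.exp ((b * prof p : ℝ) * Complex.I) - Complex.exp ((b * prof q : ℝ) * Complex.I)) +
        (p - q) * (Complex.exp ((b * prof q : ℝ) * Complex.I) - Complex.exp ((b * prof y : ℝ) * Complex.I))) / (p - q) *
        Complex.exp (-(((b * prof y : ℝ) : ℂ) * Complex.I)) := by
      rw [hR]
      simp only [quo, tw_apply]
      rw [← hb]
      have e1 : Complex.exp (((b * prof y : ℝ) : ℂ) * Complex.I) * Complex.exp (-(((b * prof y : ℝ) : ℂ) * Complex.I)) = 1 := by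
        rw [← Complex.exp_add, add_neg_cancel, Complex.exp_zero]
      generalize Complex.exp (((b * prof y : ℝ) : ℂ) * Complex.I) = E at e1 ⊢
      generalize Complex.exp (-(((b * prof y : ℝ) : ℂ) * Complex.I)) = F at e1 ⊢
      generalize Complex.exp (((b * prof p : ℝ) : ℂ) * Complex.I) = E₁
      generalize Complex.exp (((b * prof q : ℝ) : ℂ) * Complex.I) = E₂
      field_simp
      linear_combination (p - q) * e1
    have hn : ‖Complex.exp (-(((b * prof y : ℝ) : ℂ) * Complex.I))‖ = 1 := by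
      rw [← neg_mul, ← Complex.ofReal_neg, Complex.norm_exp_ofReal_mul_I]
    rw [hRt, norm_mul, hn, mul_one, norm_div, div_lt_iff₀ hpos]
    have e1 := hexp (b * prof p) (b * prof q)
    have e2 := hexp (b * prof q) (b * prof y)
    rw [← mul_sub, abs_mul] at e1 e2
    have e3 : ‖Complex.exp ((b * prof p : ℝ) * Complex.I) - Complex.exp ((b * prof q : ℝ) * Complex.I)‖ ≤ |a| * (η * ‖p - q‖) :=
      e1.trans (mul_le_mul hba hz1 (abs_nonneg _) (abs_nonneg _))
    have e4 : ‖Complex.exp ((b * prof q : ℝ) * Complex.I) - Complex.exp ((b * prof y : ℝ) * Complex.I)‖ ≤ |a| * η :=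
      e2.trans (mul_le_mul hba hz3.le (abs_nonneg _) (abs_nonneg _))
    refine (norm_add_le _ _).trans_lt ?_
    rw [norm_mul, norm_mul]
    have e5 : ‖p‖ * ‖Complex.exp ((b * prof p : ℝ) * Complex.I) - Complex.exp ((b * prof q : ℝ) * Complex.I)‖ ≤
        (‖y‖ + 1) * (|a| * (η * ‖p - q‖)) := mul_le_mul hz2.le e3 (norm_nonneg _) (by positivity)
    have e6 : ‖p - q‖ * ‖Complex.exp ((b * prof q : ℝ) * Complex.I) - Complex.exp ((b * prof y : ℝ) * Complex.I)‖ ≤
        ‖p - q‖ * (|a| * η) := mul_le_mul_of_nonneg_left e4 hpos.le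
    have e7 : (‖y‖ + 1) * (|a| * (η * ‖p - q‖)) + ‖p - q‖ * (|a| * η) = (|a| * (‖y‖ + 2)) * (η * ‖p - q‖) := by ring
    have e8 : (|a| * (‖y‖ + 2)) * (η * ‖p - q‖) < ε * ‖p - q‖ := by
      have e9 : η * C = ε / 2 := by rw [hη]; field_simp
      have e10 : 0 < η * ‖p - q‖ := mul_pos hη0 hpos
      have e11 : |a| * (‖y‖ + 2) < C := by rw [hC]; linarith
      nlinarith
    linarith
  have hkey : ∀ᶠ x in dg y, (u 1).snd x = (a * prof y : ℝ) * Complex.I + Complex.log (R 1 x) := by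
    filter_upwards [hlim 1 one_pos] with x hx
    have hRc : Continuous fun t => R t x := by
      rw [hR]
      refine Continuous.mul ?_ (by fun_prop)
      have h1 : ∀ z : ℂ, Continuous fun t : I => tw ((t : ℝ) * a) z := fun z =>
        (tw_isotopy a).continuous.comp (Continuous.prodMk_left z)
      unfold quo
      exact ((h1 _).sub (h1 _)).div_const _
    have h1 : Continuous fun t : I => (u t).snd x := hu3.comp (Continuous.prodMk_left x)
    have h2 : Continuous fun t : I => (((((t : ℝ) * a) * prof y : ℝ) : ℂ) * Complex.I) + Complex.log (R t x) := by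
      refine Continuous.add (by fun_prop) (hRc.clog fun t => near_one (hx t))
    have hRne : ∀ t, R t x ≠ 0 := by
      intro t
      rw [hR]
      exact mul_ne_zero (quo_ne _ _) (Complex.exp_ne_zero _)
    have h3 := log_unique h1 h2 (fun t => by
      rw [hu4, Complex.exp_add, Complex.exp_log (hRne t), hf t, hR]
      simp only []
      rw [mul_comm (quo _ x), ← mul_assoc, ← Complex.exp_add, add_neg_cancel, Complex.exp_zero, one_mul]) 0 (by
      rw [hu0, one_snd, hR]
      simp only [Set.Icc.coe_zero, zero_mul, Complex.ofReal_zero, neg_zero, Complex.exp_zero, mul_one, zero_add]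
      rw [tw_zero, quo_one, Complex.log_one])
    have h4 := congrFun h3 1
    simp only [Set.Icc.coe_one, one_mul] at h4
    exact h4
  have hR1 : Tendsto (R 1) (dg y) (𝓝 1) := by
    rw [Metric.tendsto_nhds]
    intro ε hε
    filter_upwards [hlim ε hε] with x hx
    rw [dist_eq_norm]
    exact hx 1
  have h5 : Tendsto (fun x => (a * prof y : ℝ) * Complex.I + Complex.log (R 1 x)) (dg y)
      (𝓝 ((a * prof y : ℝ) * Complex.I + Complex.log 1)) :=
    tendsto_const_nhds.add (hR1.clog (by simp))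
  rw [Complex.log_one, add_zero] at h5
  refine h5.congr' ?_
  filter_upwards [hkey] with x hx
  exact hx.symm

/-- the rescaled maps -/
noncomputable def Rsc (k : ℂ → ℂ) (t : I) (z : ℂ) : ℂ := if (t : ℝ) = 0 then z else k ((t : ℝ) * z) / (t : ℝ)

lemma Rsc_continuous {k : ℂ → ℂ} (hk : Continuous k) (h0 : k 0 = 0)
    (hd : HasFDerivAt k (ContinuousLinearMap.id ℝ ℂ) 0) : Continuous fun x : I × ℂ => Rsc k x.1 x.2 := by
  rw [continuous_iff_continuousAt]
  rintro ⟨t₀, z₀⟩
  by_cases ht : (t₀ : ℝ) = 0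
  · have h1 : Rsc k t₀ z₀ = z₀ := by simp [Rsc, ht]
    rw [ContinuousAt, h1, Metric.tendsto_nhds]
    intro ε hε
    rw [hasFDerivAt_iff_isLittleO_nhds_zero, h0, Asymptotics.isLittleO_iff] at hd
    obtain ⟨η, hη⟩ : ∃ η : ℝ, η = ε / (2 * (‖z₀‖ + 2)) := ⟨_, rfl⟩
    have hη0 : 0 < η := by rw [hη]; positivity
    have h2 := hd hη0
    have h3 : Tendsto (fun x : I × ℂ => ((x.1 : ℝ) : ℂ) * x.2) (𝓝 (t₀, z₀)) (𝓝 0) := by
      have : Continuous fun x : I × ℂ => ((x.1 : ℝ) : ℂ) * x.2 := by fun_prop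
      have h4 := this.tendsto (t₀, z₀)
      simpa [ht] using h4
    have h4 := h3.eventually h2
    have h5 : ∀ᶠ x : I × ℂ in 𝓝 (t₀, z₀), ‖x.2 - z₀‖ < min (ε / 2) 1 := by
      have : Continuous fun x : I × ℂ => ‖x.2 - z₀‖ := by fun_prop
      have h6 := this.tendsto (t₀, z₀)
      simp only [sub_self, norm_zero] at h6
      exact h6.eventually (gt_mem_nhds (lt_min (half_pos hε) one_pos))
    filter_upwards [h4, h5] with ⟨t, z⟩ hx1 hx2
    simp only [zero_add, sub_zero, ContinuousLinearMap.id_apply] at hx1 hx2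
    rw [dist_eq_norm]
    have hz : ‖z‖ < ‖z₀‖ + 1 := by
      have e1 : z = z₀ + (z - z₀) := by ring
      have e2 := norm_add_le z₀ (z - z₀)
      rw [← e1] at e2
      have e3 := hx2.trans_le (min_le_right _ _)
      linarith
    have h6 : ‖Rsc k t z - z‖ ≤ η * ‖z‖ := by
      by_cases htt : (t : ℝ) = 0
      · simp [Rsc, htt]
        positivity
      · have htc : ((t : ℝ) : ℂ) ≠ 0 := by exact_mod_cast htt
        have htn : ‖((t : ℝ) : ℂ)‖ ≠ 0 := norm_ne_zero_iff.mpr htc
        have e1 : Rsc k t z - z = (k (((t : ℝ) : ℂ) * z) - ((t : ℝ) : ℂ) * z) / ((t : ℝ) : ℂ) := by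
          simp only [Rsc, htt, if_false]
          field_simp
        rw [e1, norm_div, div_le_iff₀ (lt_of_le_of_ne (norm_nonneg _) htn.symm)]
        rw [norm_mul] at hx1
        linarith
    have h7 : Rsc k t z - z₀ = (Rsc k t z - z) + (z - z₀) := by ring
    rw [h7]
    refine (norm_add_le _ _).trans_lt ?_
    have h8 := hx2.trans_le (min_le_left _ _)
    have h9 : η * ‖z‖ ≤ ε / 2 := by
      have e1 : η * (‖z₀‖ + 2) = ε / 2 := by rw [hη]; field_simp
      nlinarith
    linarith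
  · have h1 : ∀ᶠ x : I × ℂ in 𝓝 (t₀, z₀), (x.1 : ℝ) ≠ 0 := by
      have : Continuous fun x : I × ℂ => (x.1 : ℝ) := by fun_prop
      exact (this.tendsto (t₀, z₀)).eventually (isOpen_ne.mem_nhds ht)
    have h2 : ContinuousAt (fun x : I × ℂ => k ((x.1 : ℝ) * x.2) / (x.1 : ℝ)) (t₀, z₀) := by
      refine ContinuousAt.div ?_ ?_ (by exact_mod_cast ht)
      · exact (hk.comp (by fun_prop)).continuousAt
      · exact Continuous.continuousAt (by fun_prop)
    refine h2.congr ?_
    filter_upwards [h1] with x hx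
    simp only [Rsc, hx, if_false]

/-- the Alexander-type isotopy of a homeomorphism with derivative the identity at the origin -/
noncomputable def kiso (K : ℂ ≃ₜ ℂ) (t : I) : ℂ ≃ₜ ℂ :=
  if h : (t : ℝ) = 0 then 1 else
    (Homeomorph.mulLeft₀ ((((t : ℝ) : ℂ))⁻¹) (inv_ne_zero (by exact_mod_cast h))) * K *
      (Homeomorph.mulLeft₀ (((t : ℝ) : ℂ)) (by exact_mod_cast h))

lemma kiso_apply (K : ℂ ≃ₜ ℂ) (t : I) (z : ℂ) : kiso K t z = Rsc K t z := by
  unfold kiso Rsc
  split_ifs with h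
  · rfl
  · simp only [Homeomorph.mul_apply, Homeomorph.coe_mulLeft₀, div_eq_inv_mul]

lemma kiso_symm (K : ℂ ≃ₜ ℂ) (t : I) (z : ℂ) : (kiso K t).symm z = Rsc K.symm t z := by
  rw [Homeomorph.symm_apply_eq, kiso_apply]
  unfold Rsc
  split_ifs with h
  · rfl
  · have htc : ((t : ℝ) : ℂ) ≠ 0 := by exact_mod_cast h
    rw [mul_div_cancel₀ _ htc, Homeomorph.apply_symm_apply, mul_div_cancel_left₀ _ htc]

lemma kiso_isIsotopy {K : ℂ ≃ₜ ℂ} (h0 : K 0 = 0) (h1 : HasStrictFDerivAt K (ContinuousLinearMap.id ℝ ℂ) 0)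
    (h2 : HasStrictFDerivAt K.symm (ContinuousLinearMap.id ℝ ℂ) 0) : IsIsotopy (kiso K) K := by
  have h0' : K.symm 0 = 0 := by rw [Homeomorph.symm_apply_eq, h0]
  refine ⟨?_, ?_, ?_, ?_⟩
  · unfold kiso; simp
  · ext z
    rw [kiso_apply]
    simp [Rsc]
  · have : (fun x : I × ℂ => kiso K x.1 x.2) = fun x : I × ℂ => Rsc K x.1 x.2 := by
      funext x; exact kiso_apply _ _ _
    rw [this]
    exact Rsc_continuous K.continuous h0 h1.hasFDerivAt
  · have : (fun x : I × ℂ => (kiso K x.1).symm x.2) = fun x : I × ℂ => Rsc K.symm x.1 x.2 := by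
      funext x; exact kiso_symm _ _ _
    rw [this]
    exact Rsc_continuous K.symm.continuous h0' h2.hasFDerivAt

end Pool.Agent.Helper89.Plane
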