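import Pool.Agent.Helper89.Plane.Diag

/-!
Analytic actions of surface groups on the plane with arbitrary Euler number.
-/

set_option autoImplicit false

open scoped Topology unitInterval commutatorElement
open Filter

namespace Pool.Agent.Helper89.Plane

open LiftG

lemma prod_two {M : Type*} [Monoid M] (n : ℕ) (F : Fin (n + 2) → M) (h : ∀ i : Fin n, F i.succ.succ = 1) :
    (List.ofFn F).prod = F 0 * F 1 := by
  rw [List.ofFn_succ, List.prod_cons, List.ofFn_succ, List.prod_cons]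
  have h1 : (List.ofFn fun i : Fin n => F i.succ.succ) = List.replicate n 1 := by
    rw [List.eq_replicate_iff]
    refine ⟨by simp, fun b hb => ?_⟩
    rw [List.mem_ofFn] at hb
    obtain ⟨i, rfl⟩ := hb
    exact h i
  rw [h1, List.prod_replicate, one_pow, mul_one]
  rfl

/-- the Euler number can be computed from any lifts -/
lemma euler_of_lifts {g : ℕ} {ρ : SurfaceGroup g →* (ℂ ≃ₜ ℂ)} {e : ℤ} {U V : Fin g → I → LiftG}
    (hU : ∀ i, U i ∈ PathG) (hV : ∀ i, V i ∈ PathG)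
    (hU1 : ∀ i, (U i 1).fst = ρ (genA g i)) (hV1 : ∀ i, (V i 1).fst = ρ (genB g i))
    (h : (List.ofFn fun i : Fin g => ⁅U i 1, V i 1⁆).prod = zc e) : HasEulerNumber ρ e := by
  refine ⟨fun i => ⟨⟨_, PathG.isIsotopy (hU i) (hU1 i)⟩, ⟨_, PathG.isIsotopy (hV i) (hV1 i)⟩⟩, ?_⟩
  intro A B hA hB p q hpq
  choose u hu hu' using fun i => (hA i).exists_lift
  choose v hv hv' using fun i => (hB i).exists_lift
  let w : I → LiftG := (List.ofFn fun i : Fin g => ⁅u i, v i⁆).prod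
  have hw : w ∈ PathG := by
    refine PathG.list_prod_mem ?_
    intro x hx
    rw [List.mem_ofFn] at hx
    obtain ⟨i, rfl⟩ := hx
    simp only [commutatorElement_def]
    exact mul_mem (mul_mem (mul_mem (hu i) (hv i)) (inv_mem (hu i))) (inv_mem (hv i))
  have hwt : ∀ t, w t = (List.ofFn fun i : Fin g => ⁅u i t, v i t⁆).prod := by
    intro t
    have h1 := map_list_prod (Pi.evalMonoidHom (fun _ : I => LiftG) t) (List.ofFn fun i : Fin g => ⁅u i, v i⁆)
    rw [List.map_ofFn] at h1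
    exact h1
  have hw1 : w 1 = zc e := by
    rw [hwt, ← h]
    congr 2
    funext i
    obtain ⟨n, hn⟩ := PathG.central (hu i) (hU i) (by rw [hu', (hA i).one, hU1])
    obtain ⟨m, hm⟩ := PathG.central (hv i) (hV i) (by rw [hv', (hB i).one, hV1])
    rw [hn, hm, comm_central (zc_central n) (zc_central m)]
  have hwf : ∀ t, (w t).fst = (List.ofFn fun i : Fin g => ⁅A i t, B i t⁆).prod := by
    intro t
    rw [hwt]
    have h1 := map_list_prod pr (List.ofFn fun i : Fin g => ⁅u i t, v i t⁆)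
    rw [List.map_ofFn] at h1
    rw [← pr_apply, h1]
    congr 2
    funext i
    show pr ⁅u i t, v i t⁆ = _
    rw [commutatorElement_def, commutatorElement_def, map_mul, map_mul, map_mul, map_inv, map_inv]
    simp only [pr_apply, hu', hv']
  have h2 := PathG.winding hw hw1 p q hpq
  simp only [hwf] at h2
  exact h2

lemma sc_tr (s : ℝ) (c : ℂ) : sc s * tr c = tr (Complex.exp s * c) * sc s := by
  ext z
  simp only [Homeomorph.mul_apply, sc_apply, tr_apply]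
  ring

/-- the pair of plane diffeomorphisms at the heart of the construction -/
theorem exists_core (j : ℤ) : ∃ (s : ℝ) (αp βp : I → LiftG), αp ∈ PathG ∧ βp ∈ PathG ∧
    (αp 1).fst ∈ AnaPos ∧ (βp 1).fst ∈ AnaPos ∧
    ⁅αp 1, βp 1⁆ = zc (-j) * ⟨tr (1 - Complex.exp s), fun _ => 0⟩ := by
  obtain ⟨a, ha⟩ : ∃ a : ℝ, a = 2 * Real.pi * j := ⟨_, rfl⟩
  obtain ⟨s, hs⟩ : ∃ s : ℝ, s = (1 + |a| * (4 * Real.exp 1)) ^ 2 := ⟨_, rfl⟩
  have hs0 : 0 < s := by rw [hs]; positivity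
  have hse : (1 + |a| * (4 * Real.exp 1)) ^ 2 < Real.exp s := by
    rw [← hs]
    have := Real.add_one_lt_exp hs0.ne'
    linarith
  have ha' : -a = 2 * Real.pi * ((-j : ℤ) : ℝ) := by rw [ha]; push_cast; ring
  have hfix0 : tw (-a) 0 = 0 := by rw [tw_apply]; simp
  have hfix1 : tw (-a) 1 = 1 := by
    rw [tw_apply, one_mul, prof_one, mul_one, ha', Complex.exp_eq_one_iff]
    exact ⟨-j, by push_cast; ring⟩
  have hst1 : HasStrictFDerivAt (tw (-a)) (ContinuousLinearMap.id ℝ ℂ) 1 := by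
    rw [ha']; exact tw_strict_one _
  obtain ⟨K0, hK00, hK0a, hK0a', hK0d, hK0d', hK0e⟩ := (Gm_hyp hs0 hse hfix0 (tw_strict_zero (-a))).exists_lin
  obtain ⟨K1, hK10, hK1a, hK1a', hK1d, hK1d', hK1e⟩ := (Gm_hyp hs0 hse hfix1 hst1).exists_lin
  have hK0mem : K0 ∈ AnaPos := anaPos_of_scalar hK0a hK0a' one_ne_zero (z₀ := 0) (by
    rw [one_smul]; exact hK0d.hasFDerivAt)
  have hK1mem : K1 ∈ AnaPos := anaPos_of_scalar hK1a hK1a' one_ne_zero (z₀ := 0) (by
    rw [one_smul]; exact hK1d.hasFDerivAt)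
  -- conjugation relations
  have hscinv : ∀ z : ℂ, ((Real.exp s : ℝ) : ℂ)⁻¹ * z = (sc s)⁻¹ z := by
    intro z
    rw [sc_inv, sc_apply, Complex.ofReal_exp, ← Complex.exp_neg]
    push_cast
    rfl
  have e0 : K0 * Gm a s 0 = (sc s)⁻¹ * K0 := by
    ext z
    rw [Homeomorph.mul_apply, hK0e, hscinv, Homeomorph.mul_apply]
  have e1 : K1 * Gm a s 1 = (sc s)⁻¹ * K1 := by
    ext z
    rw [Homeomorph.mul_apply, hK1e, hscinv, Homeomorph.mul_apply]
  have g0 : Gm a s 0 = (sc s * tw a)⁻¹ := by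
    rw [Gm, neg_zero, tr_zero, one_mul, mul_one, mul_inv_rev, tw_inv, sc_inv]
  have g1 : Gm a s 1 = tr (-1) * (tr 1 * sc s * tr (-1) * tw a)⁻¹ * tr 1 := by
    rw [Gm, mul_inv_rev, mul_inv_rev, mul_inv_rev, tw_inv, sc_inv, tr_inv, tr_inv, neg_neg]
    simp only [mul_assoc]
    rw [tr_mul (-1) 1, neg_add_cancel, tr_zero, mul_one]
  have key : (tr 1 * K1⁻¹ * K0) * (sc s * tw a) * (tr 1 * K1⁻¹ * K0)⁻¹ = tr (1 - Complex.exp s) * (sc s * tw a) := by
    have k0 : K0 * (sc s * tw a) * K0⁻¹ = sc s := by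
      rw [g0] at e0
      have : K0 = (sc s)⁻¹ * K0 * (sc s * tw a) := by rw [← e0]; group
      calc K0 * (sc s * tw a) * K0⁻¹ = sc s * ((sc s)⁻¹ * K0 * (sc s * tw a)) * K0⁻¹ := by group
        _ = sc s := by rw [← this]; group
    have k1 : (tr 1 * K1⁻¹) * sc s * (tr 1 * K1⁻¹)⁻¹ = tr 1 * sc s * tr (-1) * tw a := by
      have hinv : tr (-1) = (tr 1)⁻¹ := by rw [tr_inv]
      have e2 : K1 * (tr 1)⁻¹ * (tr 1 * sc s * tr (-1) * tw a)⁻¹ * tr 1 = (sc s)⁻¹ * K1 := by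
        rw [← e1, g1, hinv]; group
      obtain ⟨X, hX⟩ : ∃ X, X = tr 1 * sc s * tr (-1) * tw a := ⟨_, rfl⟩
      rw [← hX] at e2 ⊢
      have e3 : X⁻¹ = (tr 1 * K1⁻¹) * ((K1 * (tr 1)⁻¹ * X⁻¹ * tr 1) * (tr 1)⁻¹) := by group
      rw [e2] at e3
      have e4 : X = ((tr 1 * K1⁻¹) * ((sc s)⁻¹ * K1 * (tr 1)⁻¹))⁻¹ := by rw [← e3, inv_inv]
      rw [e4]
      group
    calc (tr 1 * K1⁻¹ * K0) * (sc s * tw a) * (tr 1 * K1⁻¹ * K0)⁻¹
        = (tr 1 * K1⁻¹) * (K0 * (sc s * tw a) * K0⁻¹) * (tr 1 * K1⁻¹)⁻¹ := by group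
      _ = tr 1 * sc s * tr (-1) * tw a := by rw [k0, k1]
      _ = tr 1 * (sc s * tr (-1)) * tw a := by group
      _ = tr (1 - Complex.exp s) * (sc s * tw a) := by
        rw [sc_tr, ← mul_assoc, tr_mul, mul_assoc]
        congr 2
        ring
  -- the lifts
  obtain ⟨κ0, hκ0, hκ0f⟩ := (kiso_isIsotopy hK00 hK0d hK0d').exists_lift
  obtain ⟨κ1, hκ1, hκ1f⟩ := (kiso_isIsotopy hK10 hK1d hK1d').exists_lift
  obtain ⟨τ, hτ, hτf⟩ := (tw_isotopy a).exists_lift
  have hκ01 : (κ0 1).fst = K0 := by rw [hκ0f, (kiso_isIsotopy hK00 hK0d hK0d').one]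
  have hκ11 : (κ1 1).fst = K1 := by rw [hκ1f, (kiso_isIsotopy hK10 hK1d hK1d').one]
  have hτ1 : (τ 1).fst = tw a := by rw [hτf, (tw_isotopy a).one]
  have hsnd : ∀ {u : I → LiftG}, u ∈ PathG → Continuous (u 1).snd := fun hu =>
    hu.2.2.2.1.comp (Continuous.prodMk_right (1 : I))
  obtain ⟨c0, hc0⟩ : ∃ c, DL (κ0 1) 0 c := exists_DL (hsnd hκ0) (fun x => hκ0.2.2.2.2 1 x) (by rw [hκ01]; exact hK0d)
  obtain ⟨c1, hc1⟩ : ∃ c, DL (κ1 1) 0 c := exists_DL (hsnd hκ1) (fun x => hκ1.2.2.2.2 1 x) (by rw [hκ11]; exact hK1d)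
  have hαp : trP 1 * κ1⁻¹ * κ0 ∈ PathG := mul_mem (mul_mem (trP_mem 1) (inv_mem hκ1)) hκ0
  have hβp : scP s * τ ∈ PathG := mul_mem (scP_mem s) hτ
  obtain ⟨αp, hα⟩ : ∃ αp, αp = trP 1 * κ1⁻¹ * κ0 := ⟨_, rfl⟩
  obtain ⟨βp, hβ⟩ : ∃ βp, βp = scP s * τ := ⟨_, rfl⟩
  have hα1 : αp 1 = trP 1 1 * (κ1 1)⁻¹ * κ0 1 := by rw [hα]; rfl
  have hβ1 : βp 1 = scP s 1 * τ 1 := by rw [hβ]; rfl
  have hαf : (αp 1).fst = tr 1 * K1⁻¹ * K0 := by
    rw [hα1, mul_fst, mul_fst, inv_fst, hκ01, hκ11, trP_one]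
  have hβf : (βp 1).fst = sc s * tw a := by
    rw [hβ1, mul_fst, hτ1, scP_one]
  rw [← hα] at hαp
  rw [← hβ] at hβp
  refine ⟨s, αp, βp, hαp, hβp, ?_, ?_, ?_⟩
  · rw [hαf]; exact mul_mem (mul_mem (tr_mem 1) (inv_mem hK1mem)) hK0mem
  · rw [hβf]; exact mul_mem (sc_mem s) (tw_mem a)
  have hv : trP (1 - Complex.exp s) * βp ∈ PathG := mul_mem (trP_mem _) hβp
  have hu : αp * βp * αp⁻¹ ∈ PathG := mul_mem (mul_mem hαp hβp) (inv_mem hαp)
  obtain ⟨m, hm⟩ := PathG.central hu hv (by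
    show (αp 1 * βp 1 * (αp 1)⁻¹).fst = (trP (1 - Complex.exp s) 1 * βp 1).fst
    rw [mul_fst, mul_fst, inv_fst, mul_fst, hαf, hβf, trP_one]
    exact key)
  have hm' : αp 1 * βp 1 * (αp 1)⁻¹ = zc m * (trP (1 - Complex.exp s) 1 * βp 1) := hm
  -- diagonal limits
  have dκ1 : DL (κ1 1)⁻¹ 0 (-c1) := by
    have := hc1.inv
    rwa [hκ11, hK10] at this
  have dα : DL (αp 1) 0 (0 + -c1 + c0) := by
    rw [hα1]
    refine DL.mul ?_ hc0
    rw [hκ01, hK00]
    refine DL.mul ?_ dκ1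
    rw [trP_one]
    exact tendsto_const_nhds
  have hα0 : (αp 1).fst 0 = 1 := by
    rw [hαf]
    simp only [Homeomorph.mul_apply, Homeomorph.inv_apply, tr_apply, hK00]
    have : K1.symm 0 = 0 := by rw [Homeomorph.symm_apply_eq, hK10]
    rw [this, zero_add]
  have dαi : DL (αp 1)⁻¹ 1 (-(0 + -c1 + c0)) := by
    have := dα.inv
    rwa [hα0] at this
  have hαi : ((αp 1)⁻¹).fst 1 = 0 := by
    rw [inv_fst, Homeomorph.inv_apply, Homeomorph.symm_apply_eq, hα0]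
  have dτ0 : DL (τ 1) 0 ((a * prof 0 : ℝ) * Complex.I) := tw_DL hτ hτf prof_strict_zero
  have dτ1 : DL (τ 1) 1 ((a * prof 1 : ℝ) * Complex.I) := tw_DL hτ hτf prof_strict_one
  have dβ0 : DL (βp 1) 0 (s + (a * prof 0 : ℝ) * Complex.I) := by
    rw [hβ1]
    refine DL.mul ?_ dτ0
    rw [scP_one]
    exact tendsto_const_nhds
  have dβ1 : DL (βp 1) 1 (s + (a * prof 1 : ℝ) * Complex.I) := by
    rw [hβ1]
    refine DL.mul ?_ dτ1
    rw [scP_one]
    exact tendsto_const_nhds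
  have hβ0 : (βp 1).fst 0 = 0 := by
    rw [hβf]
    simp [Homeomorph.mul_apply, tw_apply]
  have d1 : DL (αp 1 * βp 1 * (αp 1)⁻¹) 1 ((0 + -c1 + c0) + (s + (a * prof 0 : ℝ) * Complex.I) + -(0 + -c1 + c0)) := by
    refine DL.mul ?_ dαi
    rw [hαi]
    refine DL.mul ?_ dβ0
    rw [hβ0]
    exact dα
  have d2 : DL (zc m * (trP (1 - Complex.exp s) 1 * βp 1)) 1
      (2 * Real.pi * Complex.I * m + (0 + (s + (a * prof 1 : ℝ) * Complex.I))) := by
    refine DL.mul (DL_zc m _) (DL.mul ?_ dβ1)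
    rw [trP_one]
    exact tendsto_const_nhds
  rw [hm'] at d1
  have h3 := d1.unique d2
  rw [prof_zero, prof_one, ha] at h3
  have h4 : (2 * Real.pi * Complex.I : ℂ) * ((m + j : ℤ) : ℂ) = 0 := by
    push_cast at h3 ⊢
    linear_combination -h3
  have h5 : m + j = 0 := by
    rcases mul_eq_zero.mp h4 with h | h
    · exact absurd h Complex.two_pi_I_ne_zero
    · exact_mod_cast h
  have h6 : m = -j := by linarith
  rw [commutatorElement_def, hm', h6, trP_one]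
  group

/-- the commutator of a translation and a dilation -/
lemma comm_tr_sc (s : ℝ) : ⁅trP (-1) 1, scP s 1⁆ = (⟨tr (Complex.exp s - 1), fun _ => 0⟩ : LiftG) := by
  rw [trP_one, scP_one, commutatorElement_def]
  ext1
  · simp only [mul_fst, inv_fst]
    rw [tr_inv, neg_neg, mul_assoc (tr (-1)), sc_tr, ← mul_assoc, tr_mul, mul_assoc, mul_inv_cancel, mul_one]
    congr 1
    ring
  · funext x
    simp only [mul_snd, inv_snd]
    ring

theorem main (g : ℕ) (hg : 2 ≤ g) (e : ℤ) : ∃ ρ : SurfaceGroup g →* (ℂ ≃ₜ ℂ),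
    (∀ γ, ρ γ ∈ AnaPos) ∧ HasEulerNumber ρ e := by
  obtain ⟨n, rfl⟩ := Nat.exists_eq_add_of_le' hg
  obtain ⟨s, αp, βp, hα, hβ, hαm, hβm, hcomm⟩ := exists_core (-e)
  rw [neg_neg] at hcomm
  let U : Fin (n + 2) → I → LiftG := fun i => if i = 0 then αp else if i = 1 then trP (-1) else 1
  let V : Fin (n + 2) → I → LiftG := fun i => if i = 0 then βp else if i = 1 then scP s else 1
  have h10 : (1 : Fin (n + 2)) ≠ 0 := by simp
  have hU0 : U 0 = αp := by simp [U]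
  have hV0 : V 0 = βp := by simp [V]
  have hU1 : U 1 = trP (-1) := by simp [U]
  have hV1 : V 1 = scP s := by simp [V]
  have hU2 : ∀ i : Fin n, U i.succ.succ = 1 := by
    intro i
    have h1 : (i.succ.succ : Fin (n + 2)) ≠ 0 := Fin.succ_ne_zero _
    have h2 : (i.succ.succ : Fin (n + 2)) ≠ 1 := by
      intro h
      have := congrArg Fin.val h
      simp at this
    simp [U, h1, h2]
  have hV2 : ∀ i : Fin n, V i.succ.succ = 1 := by
    intro i
    have h1 : (i.succ.succ : Fin (n + 2)) ≠ 0 := Fin.succ_ne_zero _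
    have h2 : (i.succ.succ : Fin (n + 2)) ≠ 1 := by
      intro h
      have := congrArg Fin.val h
      simp at this
    simp [V, h1, h2]
  have hUm : ∀ i, U i ∈ PathG := by
    intro i
    simp only [U]
    split_ifs
    · exact hα
    · exact trP_mem _
    · exact one_mem _
  have hVm : ∀ i, V i ∈ PathG := by
    intro i
    simp only [V]
    split_ifs
    · exact hβ
    · exact scP_mem _
    · exact one_mem _
  have hprod : (List.ofFn fun i : Fin (n + 2) => ⁅U i 1, V i 1⁆).prod = zc e := by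
    rw [prod_two n _ (fun i => by rw [hU2, hV2]; simp)]
    simp only [hU0, hU1, hV0, hV1]
    rw [hcomm, comm_tr_sc, mul_assoc]
    have h1 : (⟨tr (1 - Complex.exp s), fun _ => 0⟩ : LiftG) * ⟨tr (Complex.exp s - 1), fun _ => 0⟩ = 1 := by
      ext1
      · show tr (1 - Complex.exp s) * tr (Complex.exp s - 1) = 1
        rw [tr_mul, ← tr_zero]
        congr 1
        ring
      · funext x
        show (0:ℂ) + 0 = 0
        ring
    rw [h1, mul_one]
  let f : Fin (n + 2) ⊕ Fin (n + 2) → (ℂ ≃ₜ ℂ) := Sum.elim (fun i => (U i 1).fst) (fun i => (V i 1).fst)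
  have hrel : ∀ r ∈ ({surfaceRelator (n + 2)} : Set (FreeGroup (Fin (n + 2) ⊕ Fin (n + 2)))), FreeGroup.lift f r = 1 := by
    intro r hr
    rw [Set.mem_singleton_iff] at hr
    rw [hr, surfaceRelator, map_list_prod, List.map_ofFn]
    have h1 := map_list_prod pr (List.ofFn fun i : Fin (n + 2) => ⁅U i 1, V i 1⁆)
    rw [List.map_ofFn, hprod] at h1
    have h2 : pr (zc e) = 1 := rfl
    rw [h2] at h1
    rw [h1]
    congr 2
  let ρ : SurfaceGroup (n + 2) →* (ℂ ≃ₜ ℂ) := PresentedGroup.toGroup hrel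
  have hρA : ∀ i, ρ (genA (n + 2) i) = (U i 1).fst := fun i => PresentedGroup.toGroup.of hrel
  have hρB : ∀ i, ρ (genB (n + 2) i) = (V i 1).fst := fun i => PresentedGroup.toGroup.of hrel
  have hUa : ∀ i, (U i 1).fst ∈ AnaPos := by
    intro i
    simp only [U]
    split_ifs
    · exact hαm
    · rw [trP_one]; exact tr_mem _
    · exact one_mem _
  have hVa : ∀ i, (V i 1).fst ∈ AnaPos := by
    intro i
    simp only [V]
    split_ifs
    · exact hβm
    · rw [scP_one]; exact sc_mem _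
    · exact one_mem _
  refine ⟨ρ, ?_, ?_⟩
  · intro γ
    obtain ⟨w, rfl⟩ := PresentedGroup.mk_surjective _ γ
    have h1 : ρ (PresentedGroup.mk _ w) = FreeGroup.lift f w := rfl
    rw [h1]
    have h2 : (FreeGroup.lift f).range ≤ AnaPos := by
      refine FreeGroup.range_lift_le ?_
      rintro _ ⟨x, rfl⟩
      rcases x with i | i
      · exact hUa i
      · exact hVa i
    exact h2 ⟨w, rfl⟩
  · exact euler_of_lifts hUm hVm (fun i => (hρA i).symm) (fun i => (hρB i).symm) hprod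

end Pool.Agent.Helper89.Plane
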