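import Pool.Agent.Helper89.Plane.Ana

/-!
The contractions to which the linearisation theorem is applied.
-/

set_option autoImplicit false

open scoped ComplexConjugate Topology ENNReal NNReal
open Filter

namespace Pool.Agent.Helper89.Plane

lemma tw_strict {a : ℝ} {p : ℂ} (hp : HasStrictFDerivAt prof (0 : ℂ →L[ℝ] ℝ) p)
    (h1 : Complex.exp ((a * prof p : ℝ) * Complex.I) = 1) :
    HasStrictFDerivAt (tw a) (ContinuousLinearMap.id ℝ ℂ) p := by
  have h2 : HasStrictFDerivAt (fun w : ℂ => ((a * prof w : ℝ) : ℂ) * Complex.I)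
      ((Complex.ofRealCLM.comp (a • (0 : ℂ →L[ℝ] ℝ))).smulRight Complex.I) p := by
    have h3 : HasStrictFDerivAt (fun w : ℂ => ((a * prof w : ℝ) : ℂ)) (Complex.ofRealCLM.comp (a • (0 : ℂ →L[ℝ] ℝ))) p :=
      (Complex.ofRealCLM.hasStrictFDerivAt).comp p (hp.const_mul a)
    exact h3.mul_const' Complex.I
  have h3 := h2.cexp
  have h4 := (hasStrictFDerivAt_id (𝕜 := ℝ) p).mul h3
  have h5 : (p • Complex.exp (((a * prof p : ℝ) : ℂ) * Complex.I) •
      ((Complex.ofRealCLM.comp (a • (0 : ℂ →L[ℝ] ℝ))).smulRight Complex.I) +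
      Complex.exp (((a * prof p : ℝ) : ℂ) * Complex.I) • ContinuousLinearMap.id ℝ ℂ) = ContinuousLinearMap.id ℝ ℂ := by
    rw [h1]
    ext
    simp
  rw [← h5]
  exact h4

lemma tw_strict_zero (a : ℝ) : HasStrictFDerivAt (tw a) (ContinuousLinearMap.id ℝ ℂ) 0 :=
  tw_strict prof_strict_zero (by simp [prof_zero])

lemma tw_strict_one (j : ℤ) : HasStrictFDerivAt (tw (2 * Real.pi * j)) (ContinuousLinearMap.id ℝ ℂ) 1 := by
  refine tw_strict prof_strict_one ?_
  rw [prof_one, mul_one, Complex.exp_eq_one_iff]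
  refine ⟨j, ?_⟩
  push_cast
  ring

lemma tw_mem (a : ℝ) : tw a ∈ AnaPos := by
  refine anaPos_of_scalar (c := 1) (z₀ := 0) (tw_analytic a) ?_ one_ne_zero ?_
  · rw [← inv_coe, tw_inv]; exact tw_analytic _
  · rw [one_smul]; exact (tw_strict_zero a).hasFDerivAt

lemma tr_mem (c : ℂ) : tr c ∈ AnaPos := by
  have h1 : ∀ c : ℂ, AnalyticOnNhd ℝ (tr c) Set.univ := by
    intro c z _
    have : (tr c : ℂ → ℂ) = fun z => z + c := rfl
    rw [this]
    exact analyticAt_id.add analyticAt_const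
  refine anaPos_of_scalar (c := 1) (z₀ := 0) (h1 c) ?_ one_ne_zero ?_
  · rw [← inv_coe, tr_inv]; exact h1 _
  · rw [one_smul]
    have : (tr c : ℂ → ℂ) = fun z => z + c := rfl
    rw [this]
    exact (hasFDerivAt_id (𝕜 := ℝ) (0:ℂ)).add_const c

lemma sc_mul (s t : ℝ) : sc s * sc t = sc (s + t) := by
  ext z
  rw [Homeomorph.mul_apply, sc_apply, sc_apply, sc_apply, ← mul_assoc, ← Complex.exp_add]
  push_cast
  rfl

lemma sc_inv (s : ℝ) : (sc s)⁻¹ = sc (-s) := by
  rw [inv_eq_iff_mul_eq_one, sc_mul, add_neg_cancel, sc_zero]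

lemma sc_strict (s : ℝ) (z : ℂ) : HasStrictFDerivAt (sc s) (Real.exp s • ContinuousLinearMap.id ℝ ℂ) z := by
  have h1 := (hasStrictFDerivAt_id (𝕜 := ℝ) z).const_mul (Complex.exp s)
  have h2 : (sc s : ℂ → ℂ) = fun z => Complex.exp s * z := rfl
  rw [h2]
  convert! h1 using 1
  ext
  simp

lemma sc_mem (s : ℝ) : sc s ∈ AnaPos := by
  have h1 : ∀ s : ℝ, AnalyticOnNhd ℝ (sc s) Set.univ := by
    intro s z _
    have : (sc s : ℂ → ℂ) = fun z => Complex.exp s * z := rfl
    rw [this]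
    exact analyticAt_const.mul analyticAt_id
  refine anaPos_of_scalar (c := Real.exp s) (z₀ := 0) (h1 s) ?_ (Real.exp_ne_zero s) (sc_strict s 0).hasFDerivAt
  rw [← inv_coe, sc_inv]; exact h1 _

/-- the centred inverse of the twisted dilation -/
noncomputable def Gm (a s : ℝ) (p : ℂ) : ℂ ≃ₜ ℂ := tr (-p) * tw (-a) * tr p * sc (-s)

lemma Gm_apply (a s : ℝ) (p w : ℂ) : Gm a s p w = tw (-a) (Complex.exp (-s) * w + p) - p := by
  simp only [Gm, Homeomorph.mul_apply, tr_apply, sc_apply]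
  push_cast
  ring

lemma Gm_mem (a s : ℝ) (p : ℂ) : Gm a s p ∈ AnaPos :=
  mul_mem (mul_mem (mul_mem (tr_mem _) (tw_mem _)) (tr_mem _)) (sc_mem _)

lemma Gm_rep0 (a s : ℝ) (p : ℂ) : ∃ M, Rep 0 1 M (Gm a s p) := by
  have h01 : (0:ℝ) ≤ 1 := zero_le_one
  have hu : ∃ M, Rep 0 1 M (fun w => Complex.exp (-s) * w + p) :=
    ⟨_, (((rep_id 1).mono_order (Nat.zero_le 1)).const_mul h01 _).add h01 (rep_const 1 p)⟩
  obtain ⟨M, hu⟩ := hu
  have hs := hu.mul h01 hu.conj
  have h3 := (rep_const 1 (1:ℂ)).add h01 (hs.const_mul h01 (-1))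
  obtain ⟨N, h4⟩ := h3.exp h01
  have h5 := (hs.mul h01 h4).const_mul h01 (((-a : ℝ) : ℂ) * Complex.I)
  obtain ⟨N', h6⟩ := h5.exp h01
  have h7 := (hu.mul h01 h6).add h01 (rep_const 1 (-p))
  have h8 : (Gm a s p : ℂ → ℂ) = fun z => (Complex.exp (-s) * z + p) *
      Complex.exp (((-a : ℝ) : ℂ) * Complex.I * (((Complex.exp (-s) * z + p) * conj (Complex.exp (-s) * z + p)) *
      Complex.exp (1 + -1 * ((Complex.exp (-s) * z + p) * conj (Complex.exp (-s) * z + p))))) + -p := by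
    funext w
    rw [Gm_apply, tw_apply']
    ring
  rw [h8]
  exact ⟨_, h7⟩

/-- the hypotheses of the linearisation theorem hold when the dilation is strong enough -/
lemma Gm_hyp {a s : ℝ} {p : ℂ} (hs : 0 < s) (has : (1 + |a| * (4 * Real.exp 1)) ^ 2 < Real.exp s)
    (h1 : tw (-a) p = p) (h2 : HasStrictFDerivAt (tw (-a)) (ContinuousLinearMap.id ℝ ℂ) p) :
    KHyp (Gm a s p) (Real.exp s) ((1 + |a| * (4 * Real.exp 1)) * Real.exp (-s)) := by
  have hexp : ((Real.exp s : ℝ) : ℂ)⁻¹ = Complex.exp (-s) := by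
    rw [Complex.ofReal_exp, Complex.exp_neg]
  have hzero : Gm a s p 0 = 0 := by
    rw [Gm_apply]; simp [h1]
  have hder : HasFDerivAt (Gm a s p) (Real.exp (-s) • ContinuousLinearMap.id ℝ ℂ) 0 := by
    have e1 : HasFDerivAt (fun w : ℂ => Complex.exp (-s) * w + p) (Real.exp (-s) • ContinuousLinearMap.id ℝ ℂ) 0 := by
      have e2 := ((sc_strict (-s) 0).hasFDerivAt).add_const p
      refine e2.congr_of_eventuallyEq (Eventually.of_forall fun w => ?_)
      simp
    have e3 : HasFDerivAt (tw (-a)) (ContinuousLinearMap.id ℝ ℂ) ((fun w : ℂ => Complex.exp (-s) * w + p) 0) := by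
      simp only [mul_zero, zero_add]
      exact h2.hasFDerivAt
    have e4 := (e3.comp 0 e1).sub_const p
    rw [ContinuousLinearMap.id_comp] at e4
    refine e4.congr_of_eventuallyEq (Eventually.of_forall fun w => ?_)
    rw [Gm_apply]
    rfl
  refine ⟨Real.one_lt_exp_iff.mpr hs, by positivity, ?_, ?_, hzero, ?_, (Gm_mem a s p).1, (Gm_mem a s p).2.1⟩
  · have e1 : Real.exp s * ((1 + |a| * (4 * Real.exp 1)) * Real.exp (-s)) ^ 2 =
        (1 + |a| * (4 * Real.exp 1)) ^ 2 * Real.exp (-s) * (Real.exp s * Real.exp (-s)) := by ring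
    rw [e1, ← Real.exp_add, add_neg_cancel, Real.exp_zero, mul_one, Real.exp_neg, ← div_eq_mul_inv,
      div_lt_one (Real.exp_pos s)]
    exact has
  · intro x y
    rw [Gm_apply, Gm_apply]
    have e1 := tw_lip (-a) (Complex.exp (-s) * x + p) (Complex.exp (-s) * y + p)
    have e2 : Complex.exp (-s) * x + p - (Complex.exp (-s) * y + p) = Complex.exp (-s) * (x - y) := by ring
    have e3 : ‖Complex.exp (-s)‖ = Real.exp (-s) := by
      rw [Complex.norm_exp]; simp
    rw [e2, norm_mul, e3, abs_neg] at e1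
    have e4 : tw (-a) (Complex.exp (-s) * x + p) - p - (tw (-a) (Complex.exp (-s) * y + p) - p) =
      tw (-a) (Complex.exp (-s) * x + p) - tw (-a) (Complex.exp (-s) * y + p) := by ring
    rw [e4]
    linarith
  · obtain ⟨M, hM⟩ := Gm_rep0 a s p
    have e1 := hM.add zero_le_one ((((rep_id 1).mono_order (Nat.zero_le 1)).const_mul zero_le_one (-(((Real.exp s : ℝ) : ℂ)⁻¹))))
    have e2 : (fun z => Gm a s p z + -(((Real.exp s : ℝ) : ℂ)⁻¹) * z) =
        fun z => Gm a s p z - (((Real.exp s : ℝ) : ℂ)⁻¹) * z := by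
      funext z
      ring
    rw [e2] at e1
    refine ⟨1, _, one_pos, Rep.order_two one_pos e1 ?_⟩
    · rw [hasFDerivAt_iff_isLittleO_nhds_zero, hzero] at hder
      refine hder.congr (fun z => ?_) (fun z => rfl)
      rw [zero_add, hexp]
      simp

end Pool.Agent.Helper89.Plane
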