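import Pool.Agent.Helper89.Plane.Ser

/-!
Koenigs linearisation of a real-analytic global contraction `G` of the plane whose derivative at the
fixed point `0` is the scalar `l⁻¹`, provided its Lipschitz constant `q` satisfies `l q² < 1`.
-/

set_option autoImplicit false

open scoped ComplexConjugate Topology ENNReal NNReal
open Filter

namespace Pool.Agent.Helper89.Plane

/-- the hypotheses of the linearisation theorem -/
structure KHyp (G : ℂ ≃ₜ ℂ) (l q : ℝ) : Prop where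
  hl : 1 < l
  hq : 0 ≤ q
  hlq : l * q ^ 2 < 1
  lip : ∀ x y, ‖G x - G y‖ ≤ q * ‖x - y‖
  zero : G 0 = 0
  rep : ∃ r M, 0 < r ∧ Rep 2 r M (fun z => G z - (l:ℂ)⁻¹ * z)
  ana : AnalyticOnNhd ℝ G Set.univ
  ana' : AnalyticOnNhd ℝ G.symm Set.univ

/-- the linearising map -/
noncomputable def kfun (G : ℂ → ℂ) (l : ℝ) (z : ℂ) : ℂ :=
  z + ∑' n : ℕ, (l:ℂ) ^ (n + 1) * (G (G^[n] z) - (l:ℂ)⁻¹ * G^[n] z)

section
variable {G : ℂ ≃ₜ ℂ} {l q : ℝ}

lemma KHyp.l_pos (h : KHyp G l q) : 0 < l := zero_lt_one.trans h.hl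

lemma KHyp.l_ne (h : KHyp G l q) : (l:ℂ) ≠ 0 := by
  exact_mod_cast h.l_pos.ne'

lemma KHyp.norm_l (h : KHyp G l q) : ‖(l:ℂ)‖ = l := by
  rw [Complex.norm_real, Real.norm_eq_abs, abs_of_pos h.l_pos]

lemma KHyp.q_lt (h : KHyp G l q) : q < 1 := by
  by_contra hcon
  push Not at hcon
  have h1 := h.hlq
  have h2 := h.hl
  nlinarith

lemma KHyp.iter (h : KHyp G l q) (z : ℂ) (n : ℕ) : ‖G^[n] z‖ ≤ q ^ n * ‖z‖ := by
  induction n with
  | zero => simp
  | succ n ih =>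
    rw [Function.iterate_succ_apply']
    have h1 := h.lip (G^[n] z) 0
    rw [h.zero, sub_zero, sub_zero] at h1
    refine h1.trans ?_
    rw [pow_succ']
    have := mul_le_mul_of_nonneg_left ih h.hq
    linarith

lemma KHyp.Qbound (h : KHyp G l q) : ∃ C, 0 ≤ C ∧ ∀ z : ℂ, ‖G z - (l:ℂ)⁻¹ * z‖ ≤ C * ‖z‖ ^ 2 := by
  obtain ⟨r, M, hr, hrep⟩ := h.rep
  have hM := hrep.nonneg hr.le
  have hl := h.l_pos
  have hq := h.hq
  refine ⟨M / r ^ 2 + (q + l⁻¹) / r, by positivity, fun z => ?_⟩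
  rcases le_total ‖z‖ r with hz | hz
  · have h1 := hrep.bound hr hz
    have h2 : M * (‖z‖ / r) ^ 2 = M / r ^ 2 * ‖z‖ ^ 2 := by
      rw [div_pow]; ring
    rw [h2] at h1
    refine h1.trans ?_
    apply mul_le_mul_of_nonneg_right _ (by positivity)
    have : 0 ≤ (q + l⁻¹) / r := by positivity
    linarith
  · have h1 : ‖G z - (l:ℂ)⁻¹ * z‖ ≤ (q + l⁻¹) * ‖z‖ := by
      have h2 := h.lip z 0
      rw [h.zero, sub_zero, sub_zero] at h2
      refine (norm_sub_le _ _).trans ?_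
      rw [norm_mul, norm_inv, h.norm_l]
      linarith
    refine h1.trans ?_
    have h3 : (q + l⁻¹) * ‖z‖ ≤ (q + l⁻¹) / r * ‖z‖ ^ 2 := by
      rw [div_mul_eq_mul_div, le_div_iff₀ hr, pow_two]
      have : 0 ≤ (q + l⁻¹) * ‖z‖ := by positivity
      nlinarith
    refine h3.trans ?_
    apply mul_le_mul_of_nonneg_right _ (by positivity)
    have : 0 ≤ M / r ^ 2 := by positivity
    linarith

lemma KHyp.term (h : KHyp G l q) {C : ℝ} (hC : 0 ≤ C) (hQ : ∀ z : ℂ, ‖G z - (l:ℂ)⁻¹ * z‖ ≤ C * ‖z‖ ^ 2)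
    (z : ℂ) (n : ℕ) :
    ‖(l:ℂ) ^ (n + 1) * (G (G^[n] z) - (l:ℂ)⁻¹ * G^[n] z)‖ ≤ (l * C * ‖z‖ ^ 2) * (l * q ^ 2) ^ n := by
  rw [norm_mul, norm_pow, h.norm_l]
  have hl := h.l_pos
  have h1 := hQ (G^[n] z)
  have h2 : ‖G^[n] z‖ ^ 2 ≤ (q ^ n * ‖z‖) ^ 2 := pow_le_pow_left₀ (norm_nonneg _) (h.iter z n) 2
  have h3 : ‖G (G^[n] z) - (l:ℂ)⁻¹ * G^[n] z‖ ≤ C * (q ^ n * ‖z‖) ^ 2 :=
    h1.trans (mul_le_mul_of_nonneg_left h2 hC)
  have h4 := mul_le_mul_of_nonneg_left h3 (pow_nonneg hl.le (n + 1))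
  refine h4.trans (le_of_eq ?_)
  ring

lemma KHyp.summable (h : KHyp G l q) (z : ℂ) :
    Summable fun n : ℕ => (l:ℂ) ^ (n + 1) * (G (G^[n] z) - (l:ℂ)⁻¹ * G^[n] z) := by
  obtain ⟨C, hC, hQ⟩ := h.Qbound
  have hl := h.l_pos
  exact Summable.of_norm_bounded
    ((summable_geometric_of_lt_one (by positivity) h.hlq).mul_left _) (h.term hC hQ z)

lemma KHyp.kbound (h : KHyp G l q) : ∃ C, 0 ≤ C ∧ ∀ z : ℂ, ‖kfun G l z - z‖ ≤ C * ‖z‖ ^ 2 := by
  obtain ⟨C, hC, hQ⟩ := h.Qbound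
  have hl := h.l_pos
  have h1 : 0 < 1 - l * q ^ 2 := by have := h.hlq; linarith
  refine ⟨l * C * (1 - l * q ^ 2)⁻¹, by positivity, fun z => ?_⟩
  have h2 : kfun G l z - z = ∑' n : ℕ, (l:ℂ) ^ (n + 1) * (G (G^[n] z) - (l:ℂ)⁻¹ * G^[n] z) := by
    simp [kfun]
  rw [h2]
  have h3 := tsum_of_norm_bounded
    ((summable_geometric_of_lt_one (by positivity) h.hlq).mul_left (l * C * ‖z‖ ^ 2)).hasSum
    (h.term hC hQ z)
  refine h3.trans (le_of_eq ?_)
  rw [tsum_mul_left, tsum_geometric_of_lt_one (by positivity) h.hlq]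
  ring

lemma KHyp.kfun_G (h : KHyp G l q) (z : ℂ) : kfun G l (G z) = (l:ℂ)⁻¹ * kfun G l z := by
  have hl := h.l_ne
  have h1 : ∑' n : ℕ, (l:ℂ) ^ (n + 1) * (G (G^[n] z) - (l:ℂ)⁻¹ * G^[n] z) =
      (l:ℂ) * (G z - (l:ℂ)⁻¹ * z) +
      ∑' n : ℕ, (l:ℂ) ^ (n + 1 + 1) * (G (G^[n + 1] z) - (l:ℂ)⁻¹ * G^[n + 1] z) := by
    rw [(h.summable z).tsum_eq_zero_add]
    simp
  have h2 : ∑' n : ℕ, (l:ℂ) ^ (n + 1) * (G (G^[n] (G z)) - (l:ℂ)⁻¹ * G^[n] (G z)) =
      (l:ℂ)⁻¹ * ∑' n : ℕ, (l:ℂ) ^ (n + 1 + 1) * (G (G^[n + 1] z) - (l:ℂ)⁻¹ * G^[n + 1] z) := by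
    rw [← tsum_mul_left]
    refine tsum_congr fun n => ?_
    rw [Function.iterate_succ_apply, pow_succ (l:ℂ) (n + 1)]
    field_simp
  unfold kfun
  rw [h2, h1]
  field_simp
  ring

lemma KHyp.kfun_iter (h : KHyp G l q) (z : ℂ) (n : ℕ) :
    kfun G l z = (l:ℂ) ^ n * kfun G l (G^[n] z) := by
  have hl := h.l_ne
  induction n with
  | zero => simp
  | succ n ih =>
    rw [Function.iterate_succ_apply', h.kfun_G, ih]
    field_simp
    ring

lemma KHyp.kfun_zero (h : KHyp G l q) : kfun G l 0 = 0 := by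
  obtain ⟨C, hC, hb⟩ := h.kbound
  have := hb 0
  simpa using this

/-- the linearising map is given by a series near the origin -/
lemma KHyp.kfun_rep (h : KHyp G l q) : ∃ r M, 0 < r ∧ Rep 0 r M (kfun G l) := by
  obtain ⟨r, M, hr, hrep⟩ := h.rep
  have hM := hrep.nonneg hr.le
  have hl := h.l_pos
  have hl1 := h.hl
  -- an intermediate rate
  obtain ⟨s, hs⟩ : ∃ s : ℝ, s = 2 / (l + 1) := ⟨_, rfl⟩
  have hs0 : 0 < s := by rw [hs]; positivity
  have hs1 : l⁻¹ < s := by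
    rw [hs, inv_eq_one_div, div_lt_div_iff₀ hl (by linarith)]
    linarith
  have hs2 : l * s ^ 2 < 1 := by
    rw [hs, div_pow, ← mul_div_assoc, div_lt_one (by positivity)]
    nlinarith
  have hs3 : s < 1 := by
    rw [hs, div_lt_one (by linarith)]
    linarith
  -- the radius
  obtain ⟨ρ, hρ0, hρr, hρ⟩ : ∃ ρ : ℝ, 0 < ρ ∧ ρ ≤ r ∧ M * (ρ / r) ^ 2 ≤ (s - l⁻¹) * ρ := by
    refine ⟨min r ((s - l⁻¹) * r ^ 2 / (M + 1)), ?_, min_le_left _ _, ?_⟩
    · apply lt_min hr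
      have : 0 < s - l⁻¹ := by linarith
      positivity
    · have h1 : min r ((s - l⁻¹) * r ^ 2 / (M + 1)) ≤ (s - l⁻¹) * r ^ 2 / (M + 1) := min_le_right _ _
      have h0 : 0 < min r ((s - l⁻¹) * r ^ 2 / (M + 1)) := by
        apply lt_min hr
        have : 0 < s - l⁻¹ := by linarith
        positivity
      obtain ⟨ρ, hρ⟩ : ∃ ρ : ℝ, ρ = min r ((s - l⁻¹) * r ^ 2 / (M + 1)) := ⟨_, rfl⟩
      rw [← hρ] at h0 h1 ⊢
      rw [le_div_iff₀ (by positivity)] at h1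
      rw [div_pow, ← mul_div_assoc, div_le_iff₀ (by positivity)]
      nlinarith
  have hG : ∀ n : ℕ, Rep 0 ρ (s ^ n * ρ) (fun z => G^[n] z) := by
    intro n
    induction n with
    | zero => simpa using (rep_id ρ).mono_order (Nat.zero_le 1)
    | succ n ih =>
      have hsn : s ^ n ≤ 1 := pow_le_one₀ hs0.le hs3.le
      have hsn0 : 0 < s ^ n := pow_pos hs0 n
      have h1 : Rep 0 ρ (M * (s ^ n * ρ / r) ^ 2) (fun z => G (G^[n] z) - (l:ℂ)⁻¹ * G^[n] z) :=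
        Rep.comp (f := fun z => G z - (l:ℂ)⁻¹ * z) hr hρ0.le (by positivity)
          (by nlinarith) hrep ih
      have h2 := (ih.const_mul hρ0.le ((l:ℂ)⁻¹)).add hρ0.le h1
      have h3 : (fun z => (l:ℂ)⁻¹ * G^[n] z + (G (G^[n] z) - (l:ℂ)⁻¹ * G^[n] z)) =
          fun z => G^[n + 1] z := by
        funext z
        rw [Function.iterate_succ_apply']
        ring
      rw [h3] at h2
      refine h2.mono ?_
      rw [norm_inv, h.norm_l]
      have h4 : M * (s ^ n * ρ / r) ^ 2 = (s ^ n) ^ 2 * (M * (ρ / r) ^ 2) := by ring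
      rw [h4]
      have h5 : (s ^ n) ^ 2 * (M * (ρ / r) ^ 2) ≤ (s ^ n) ^ 2 * ((s - l⁻¹) * ρ) :=
        mul_le_mul_of_nonneg_left hρ (by positivity)
      have h6 : (s ^ n) ^ 2 * ((s - l⁻¹) * ρ) ≤ s ^ n * ((s - l⁻¹) * ρ) := by
        apply mul_le_mul_of_nonneg_right
        · nlinarith
        · apply mul_nonneg _ hρ0.le
          linarith
      calc l⁻¹ * (s ^ n * ρ) + (s ^ n) ^ 2 * (M * (ρ / r) ^ 2)
          ≤ l⁻¹ * (s ^ n * ρ) + s ^ n * ((s - l⁻¹) * ρ) := by linarith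
        _ = s ^ (n + 1) * ρ := by ring
  have hterm : ∀ n : ℕ, Rep 0 ρ (l * M * (ρ / r) ^ 2 * (l * s ^ 2) ^ n)
      (fun z => (l:ℂ) ^ (n + 1) * (G (G^[n] z) - (l:ℂ)⁻¹ * G^[n] z)) := by
    intro n
    have hsn : s ^ n ≤ 1 := pow_le_one₀ hs0.le hs3.le
    have hsn0 : 0 < s ^ n := pow_pos hs0 n
    have h1 : Rep 0 ρ (M * (s ^ n * ρ / r) ^ 2) (fun z => G (G^[n] z) - (l:ℂ)⁻¹ * G^[n] z) :=
      Rep.comp (f := fun z => G z - (l:ℂ)⁻¹ * z) hr hρ0.le (by positivity)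
        (by nlinarith) hrep (hG n)
    have h2 := h1.const_mul hρ0.le ((l:ℂ) ^ (n + 1))
    rw [norm_pow, h.norm_l] at h2
    convert h2 using 1
    ring
  have hsum : Rep 0 ρ _ (fun z => ∑' n : ℕ, (l:ℂ) ^ (n + 1) * (G (G^[n] z) - (l:ℂ)⁻¹ * G^[n] z)) :=
    Rep.tsum hρ0.le hterm
      ((summable_geometric_of_lt_one (by positivity) hs2).mul_left _)
      (fun z _ => (h.summable z).hasSum)
  exact ⟨ρ, _, hρ0, ((rep_id ρ).mono_order (Nat.zero_le 1)).add hρ0.le hsum⟩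

lemma KHyp.iter_tendsto (h : KHyp G l q) (z : ℂ) : Tendsto (fun n => G^[n] z) atTop (𝓝 0) := by
  rw [tendsto_zero_iff_norm_tendsto_zero]
  refine squeeze_zero (fun n => norm_nonneg _) (h.iter z) ?_
  have := (tendsto_pow_atTop_nhds_zero_of_lt_one h.hq h.q_lt).mul_const ‖z‖
  simpa using this

lemma iter_analytic (h : AnalyticOnNhd ℝ G Set.univ) (n : ℕ) :
    AnalyticOnNhd ℝ (fun z => G^[n] z) Set.univ := by
  induction n with
  | zero => exact fun z _ => analyticAt_id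
  | succ n ih =>
    intro z _
    have h1 : (fun z => G^[n + 1] z) = fun z => G ((fun z => G^[n] z) z) := by
      funext z; rw [Function.iterate_succ_apply']
    rw [h1]
    exact (h _ (Set.mem_univ _)).comp (ih z (Set.mem_univ _))

lemma KHyp.kfun_analytic (h : KHyp G l q) : AnalyticOnNhd ℝ (kfun G l) Set.univ := by
  obtain ⟨r, M, hr, hrep⟩ := h.kfun_rep
  have h0 : AnalyticAt ℝ (kfun G l) 0 := hrep.analyticAt hr
  have h1 := h0.eventually_analyticAt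
  intro z _
  obtain ⟨N, hN⟩ := ((h.iter_tendsto z).eventually h1).exists
  have h2 : kfun G l = fun w => (l:ℂ) ^ N * kfun G l (G^[N] w) := by
    funext w; exact h.kfun_iter w N
  rw [h2]
  have h3 : AnalyticAt ℝ (fun w => kfun G l ((fun w => G^[N] w) w)) z :=
    AnalyticAt.comp hN (iter_analytic h.ana N z (Set.mem_univ _))
  exact analyticAt_const.mul h3

lemma KHyp.kfun_fderiv (h : KHyp G l q) : HasFDerivAt (kfun G l) (ContinuousLinearMap.id ℝ ℂ) 0 := by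
  obtain ⟨C, hC, hb⟩ := h.kbound
  rw [hasFDerivAt_iff_isLittleO_nhds_zero, h.kfun_zero]
  rw [Asymptotics.isLittleO_iff]
  intro ε hε
  have hδ : 0 < ε / (C + 1) := by positivity
  filter_upwards [Metric.ball_mem_nhds (0:ℂ) hδ] with z hz
  rw [mem_ball_zero_iff, lt_div_iff₀ (by positivity)] at hz
  have h1 := hb z
  simp only [zero_add, sub_zero, ContinuousLinearMap.id_apply]
  refine h1.trans ?_
  nlinarith [norm_nonneg z]

lemma KHyp.kfun_strict (h : KHyp G l q) :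
    HasStrictFDerivAt (kfun G l) ((ContinuousLinearEquiv.refl ℝ ℂ : ℂ ≃L[ℝ] ℂ) : ℂ →L[ℝ] ℂ) 0 := by
  have h1 := (h.kfun_analytic 0 (Set.mem_univ _)).hasStrictFDerivAt
  rw [h.kfun_fderiv.fderiv] at h1
  exact h1

lemma KHyp.linv_pow (h : KHyp G l q) (w : ℂ) : Tendsto (fun n : ℕ => ((l:ℂ)⁻¹) ^ n * w) atTop (𝓝 0) := by
  have h1 : ‖(l:ℂ)⁻¹‖ < 1 := by
    rw [norm_inv, h.norm_l]
    exact inv_lt_one_of_one_lt₀ h.hl
  have := (tendsto_pow_atTop_nhds_zero_of_norm_lt_one h1).mul_const w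
  simpa using this

/-- the inverse iterates are compatible -/
lemma symm_iter (G : ℂ ≃ₜ ℂ) (n : ℕ) (z : ℂ) : G^[n] (G.symm^[n] z) = z := by
  have h1 : Function.LeftInverse G G.symm := G.apply_symm_apply
  exact h1.iterate n z

/-- Koenigs linearisation -/
theorem KHyp.exists_lin (h : KHyp G l q) : ∃ K : ℂ ≃ₜ ℂ, K 0 = 0 ∧
    AnalyticOnNhd ℝ K Set.univ ∧ AnalyticOnNhd ℝ K.symm Set.univ ∧
    HasStrictFDerivAt K (ContinuousLinearMap.id ℝ ℂ) 0 ∧
    HasStrictFDerivAt K.symm (ContinuousLinearMap.id ℝ ℂ) 0 ∧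
    ∀ z, K (G z) = (l:ℂ)⁻¹ * K z := by
  have hst := h.kfun_strict
  have hl := h.l_ne
  obtain ⟨φ, hφ⟩ : ∃ φ : OpenPartialHomeomorph ℂ ℂ, φ = hst.toOpenPartialHomeomorph (kfun G l) := ⟨_, rfl⟩
  have hφc : (φ : ℂ → ℂ) = kfun G l := by rw [hφ]; rfl
  have hφ0 : (0:ℂ) ∈ φ.source := by rw [hφ]; exact hst.mem_toOpenPartialHomeomorph_source
  have hφt : (0:ℂ) ∈ φ.target := by
    have := φ.map_source hφ0
    rw [hφc, h.kfun_zero] at this
    exact this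
  have hφs : φ.symm 0 = 0 := by
    have := φ.left_inv hφ0
    rw [hφc, h.kfun_zero] at this
    exact this
  have hk := h.kfun_analytic
  have hinv0 : AnalyticAt ℝ φ.symm 0 := by
    have h1 : AnalyticAt ℝ φ 0 := by rw [hφc]; exact hk 0 (Set.mem_univ _)
    have h2 : fderiv ℝ φ 0 = ((ContinuousLinearEquiv.refl ℝ ℂ : ℂ ≃L[ℝ] ℂ) : ℂ →L[ℝ] ℂ) := by
      rw [hφc]; exact hst.hasFDerivAt.fderiv
    have h3 := φ.analyticAt_symm' hφ0 h1 h2
    rw [hφc, h.kfun_zero] at h3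
    exact h3
  -- injectivity
  have hinj : Function.Injective (kfun G l) := by
    intro x y hxy
    have hx := (h.iter_tendsto x).eventually (φ.open_source.mem_nhds hφ0)
    have hy := (h.iter_tendsto y).eventually (φ.open_source.mem_nhds hφ0)
    obtain ⟨N, hN1, hN2⟩ := (hx.and hy).exists
    have h1 : kfun G l (G^[N] x) = kfun G l (G^[N] y) := by
      have h2 := h.kfun_iter x N
      have h3 := h.kfun_iter y N
      rw [hxy, h3] at h2
      exact (mul_left_cancel₀ (pow_ne_zero N hl) h2).symm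
    rw [← hφc] at h1
    have h2 := φ.injOn hN1 hN2 h1
    exact G.injective.iterate N h2
  -- the local formula for the inverse
  have hsec : ∀ (N : ℕ) (w : ℂ), ((l:ℂ)⁻¹) ^ N * w ∈ φ.target →
      kfun G l (G.symm^[N] (φ.symm (((l:ℂ)⁻¹) ^ N * w))) = w := by
    intro N w hw
    rw [h.kfun_iter _ N, symm_iter]
    have h1 := φ.right_inv hw
    rw [hφc] at h1
    rw [h1, ← mul_assoc, ← mul_pow, mul_inv_cancel₀ hl, one_pow, one_mul]
  have hsurj : Function.Surjective (kfun G l) := by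
    intro w
    obtain ⟨N, hN⟩ := ((h.linv_pow w).eventually (φ.open_target.mem_nhds hφt)).exists
    exact ⟨_, hsec N w hN⟩
  obtain ⟨E, hE⟩ : ∃ E : ℂ ≃ ℂ, E = Equiv.ofBijective _ ⟨hinj, hsurj⟩ := ⟨_, rfl⟩
  have hEc : ∀ z, E z = kfun G l z := fun z => by rw [hE]; rfl
  have hEs : ∀ (N : ℕ) (w : ℂ), ((l:ℂ)⁻¹) ^ N * w ∈ φ.target →
      E.symm w = G.symm^[N] (φ.symm (((l:ℂ)⁻¹) ^ N * w)) := by
    intro N w hw
    rw [Equiv.symm_apply_eq, hEc]
    exact (hsec N w hw).symm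
  have hEana : AnalyticOnNhd ℝ E.symm Set.univ := by
    intro w _
    have h1 : ∀ᶠ v in 𝓝 (0:ℂ), v ∈ φ.target ∧ AnalyticAt ℝ φ.symm v :=
      (Filter.eventually_of_mem (φ.open_target.mem_nhds hφt) fun v hv => hv).and hinv0.eventually_analyticAt
    obtain ⟨N, hN1, hN2⟩ := ((h.linv_pow w).eventually h1).exists
    have h2 : AnalyticAt ℝ (fun v : ℂ => ((l:ℂ)⁻¹) ^ N * v) w := analyticAt_const.mul analyticAt_id
    have h3 : AnalyticAt ℝ (fun v => φ.symm ((fun v : ℂ => ((l:ℂ)⁻¹) ^ N * v) v)) w :=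
      AnalyticAt.comp hN2 h2
    have h4 : AnalyticAt ℝ (fun v => (fun u => G.symm^[N] u) ((fun v => φ.symm (((l:ℂ)⁻¹) ^ N * v)) v)) w :=
      AnalyticAt.comp (iter_analytic (G := G.symm) h.ana' N _ (Set.mem_univ _)) h3
    refine h4.congr ?_
    have h5 : ∀ᶠ v in 𝓝 w, ((l:ℂ)⁻¹) ^ N * v ∈ φ.target :=
      (h2.continuousAt).eventually (φ.open_target.mem_nhds hN1)
    filter_upwards [h5] with v hv
    exact (hEs N v hv).symm
  let K : ℂ ≃ₜ ℂ :=
    { E with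
      continuous_toFun := by
        have : (E : ℂ → ℂ) = kfun G l := funext hEc
        show Continuous (E : ℂ → ℂ)
        rw [this]
        exact continuous_iff_continuousAt.mpr fun z => (hk z (Set.mem_univ _)).continuousAt
      continuous_invFun := by
        show Continuous (E.symm : ℂ → ℂ)
        exact continuous_iff_continuousAt.mpr fun z => (hEana z (Set.mem_univ _)).continuousAt }
  have hKc : (K : ℂ → ℂ) = kfun G l := funext hEc
  have hKs : (K.symm : ℂ → ℂ) = E.symm := rfl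
  have hK0 : K 0 = 0 := by rw [hKc]; exact h.kfun_zero
  have hKs0 : K.symm 0 = 0 := by rw [Homeomorph.symm_apply_eq, hK0]
  have hstK : HasStrictFDerivAt K (ContinuousLinearMap.id ℝ ℂ) 0 := by rw [hKc]; exact hst
  have hstKs : HasStrictFDerivAt K.symm (ContinuousLinearMap.id ℝ ℂ) 0 := by
    have h1 : AnalyticAt ℝ K.symm 0 := by rw [hKs]; exact hEana 0 (Set.mem_univ _)
    have h2 := h1.hasStrictFDerivAt
    have h3 : HasStrictFDerivAt (fun z => K (K.symm z)) ((ContinuousLinearMap.id ℝ ℂ).comp (fderiv ℝ K.symm 0)) 0 := by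
      have h4 : HasStrictFDerivAt K (ContinuousLinearMap.id ℝ ℂ) (K.symm 0) := by rw [hKs0]; exact hstK
      exact h4.comp 0 h2
    have h5 : (fun z => K (K.symm z)) = fun z => z := by funext z; simp
    rw [h5] at h3
    have h6 := h3.hasFDerivAt.unique (hasFDerivAt_id (𝕜 := ℝ) (0:ℂ))
    rw [ContinuousLinearMap.id_comp] at h6
    rw [h6] at h2
    exact h2
  refine ⟨K, hK0, ?_, ?_, hstK, hstKs, ?_⟩
  · rw [hKc]; exact hk
  · rw [hKs]; exact hEana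
  · intro z
    rw [hKc]
    exact h.kfun_G z

end

end Pool.Agent.Helper89.Plane
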