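import Mathlib

/-!
Functions `ℂ → ℂ` given on a ball by an absolutely convergent series of monomials
`c * z^m * (conj z)^n`, and their closure properties.  The index set of the series is arbitrary.
-/

set_option autoImplicit false

open scoped ComplexConjugate Topology ENNReal NNReal
open Filter

namespace Pool.Agent.Helper89.Plane

/-- a representation of `f` on the closed ball of radius `r` by a series of monomials of order
at least `d`, with norm at most `M` -/
def Rep (d : ℕ) (r M : ℝ) (f : ℂ → ℂ) : Prop :=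
  ∃ (ι : Type) (c : ι → ℂ) (e : ι → ℕ × ℕ), (∀ i, d ≤ (e i).1 + (e i).2) ∧
    Summable (fun i => ‖c i‖ * r ^ ((e i).1 + (e i).2)) ∧
    ∑' i, ‖c i‖ * r ^ ((e i).1 + (e i).2) ≤ M ∧
    ∀ z : ℂ, ‖z‖ ≤ r → HasSum (fun i => c i * (z ^ (e i).1 * (conj z) ^ (e i).2)) (f z)

variable {d : ℕ} {r M : ℝ} {f g : ℂ → ℂ}

lemma norm_mono (c z : ℂ) (m n : ℕ) : ‖c * (z ^ m * (conj z) ^ n)‖ = ‖c‖ * ‖z‖ ^ (m + n) := by
  rw [norm_mul, norm_mul, norm_pow, norm_pow, Complex.norm_conj, pow_add]

lemma Rep.mono_order {d' : ℕ} (h : Rep d r M f) (hd : d' ≤ d) : Rep d' r M f := by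
  obtain ⟨ι, c, e, h1, h2, h3, h4⟩ := h
  exact ⟨ι, c, e, fun i => hd.trans (h1 i), h2, h3, h4⟩

lemma Rep.mono {M' : ℝ} (h : Rep d r M f) (hM : M ≤ M') : Rep d r M' f := by
  obtain ⟨ι, c, e, h1, h2, h3, h4⟩ := h
  exact ⟨ι, c, e, h1, h2, h3.trans hM, h4⟩

lemma Rep.nonneg (hr : 0 ≤ r) (h : Rep d r M f) : 0 ≤ M := by
  obtain ⟨ι, c, e, h1, h2, h3, h4⟩ := h
  exact le_trans (tsum_nonneg fun i => by positivity) h3

/-- the basic bound -/
lemma Rep.bound (hr : 0 < r) (h : Rep d r M f) {z : ℂ} (hz : ‖z‖ ≤ r) : ‖f z‖ ≤ M * (‖z‖ / r) ^ d := by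
  obtain ⟨ι, c, e, h1, h2, h3, h4⟩ := h
  have hle : ∀ i, ‖c i * (z ^ (e i).1 * (conj z) ^ (e i).2)‖ ≤
      (‖c i‖ * r ^ ((e i).1 + (e i).2)) * (‖z‖ / r) ^ d := by
    intro i
    rw [norm_mono]
    have h5 : ‖z‖ ^ ((e i).1 + (e i).2) = r ^ ((e i).1 + (e i).2) * (‖z‖ / r) ^ ((e i).1 + (e i).2) := by
      rw [div_pow, mul_div_cancel₀ _ (pow_ne_zero _ hr.ne')]
    rw [h5, ← mul_assoc]
    apply mul_le_mul_of_nonneg_left _ (by positivity)
    exact pow_le_pow_of_le_one (by positivity) (by rw [div_le_one hr]; exact hz) (h1 i)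
  have hs : Summable fun i => (‖c i‖ * r ^ ((e i).1 + (e i).2)) * (‖z‖ / r) ^ d := h2.mul_right _
  have h6 : ‖f z‖ ≤ ∑' i, (‖c i‖ * r ^ ((e i).1 + (e i).2)) * (‖z‖ / r) ^ d := by
    rw [← (h4 z hz).tsum_eq]
    exact tsum_of_norm_bounded hs.hasSum hle
  rw [tsum_mul_right] at h6
  exact h6.trans (mul_le_mul_of_nonneg_right h3 (by positivity))

lemma Rep.bound0 (hr : 0 < r) (h : Rep d r M f) {z : ℂ} (hz : ‖z‖ ≤ r) : ‖f z‖ ≤ M := by
  have := (h.mono_order (Nat.zero_le d)).bound hr hz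
  simpa using this

/-- sums of countably many representations -/
lemma Rep.tsum {κ : Type} {F : κ → ℂ → ℂ} {N : κ → ℝ} (hr : 0 ≤ r)
    (h : ∀ k, Rep d r (N k) (F k)) (hN : Summable N)
    (hF : ∀ z : ℂ, ‖z‖ ≤ r → HasSum (fun k => F k z) (f z)) : Rep d r (∑' k, N k) f := by
  choose ι c e h1 h2 h3 h4 using h
  have hsum : Summable fun p : (Σ k, ι k) => ‖c p.1 p.2‖ * r ^ ((e p.1 p.2).1 + (e p.1 p.2).2) := by
    rw [summable_sigma_of_nonneg (fun p => by positivity)]
    refine ⟨fun k => h2 k, ?_⟩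
    exact Summable.of_nonneg_of_le (fun k => tsum_nonneg fun i => by positivity) h3 hN
  refine ⟨Σ k, ι k, fun p => c p.1 p.2, fun p => e p.1 p.2, fun p => h1 p.1 p.2, hsum, ?_, ?_⟩
  · rw [hsum.tsum_sigma]
    exact (hsum.sigma).tsum_le_tsum h3 hN
  · intro z hz
    have hs : Summable fun p : (Σ k, ι k) => c p.1 p.2 * (z ^ (e p.1 p.2).1 * (conj z) ^ (e p.1 p.2).2) := by
      refine Summable.of_norm_bounded hsum fun p => ?_
      rw [norm_mono]
      exact mul_le_mul_of_nonneg_left (pow_le_pow_left₀ (norm_nonneg _) hz _) (norm_nonneg _)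
    exact (HasSum.sigma_of_hasSum (hF z hz) (fun k => h4 k z hz) hs)

lemma Rep.add {N : ℝ} (hr : 0 ≤ r) (hf : Rep d r M f) (hg : Rep d r N g) :
    Rep d r (M + N) (fun z => f z + g z) := by
  have h := Rep.tsum (d := d) (f := fun z => f z + g z) (F := fun k : Bool => if k then f else g)
    (N := fun k : Bool => if k then M else N) hr
    (fun k => by cases k <;> simp [hf, hg]) (Summable.of_finite) (fun z _ => by
      have := hasSum_fintype (fun k : Bool => (if k then f else g) z)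
      simpa using this)
  have e : ∑' k : Bool, (if k then M else N) = M + N := by simp [tsum_fintype]
  rw [e] at h
  exact h

lemma Rep.mul {d' : ℕ} {N : ℝ} (hr : 0 ≤ r) (hf : Rep d r M f) (hg : Rep d' r N g) :
    Rep (d + d') r (M * N) (fun z => f z * g z) := by
  have hM := hf.nonneg hr
  obtain ⟨ι, c, e, h1, h2, h3, h4⟩ := hf
  obtain ⟨ι', c', e', h1', h2', h3', h4'⟩ := hg
  have hs : Summable fun p : ι × ι' => (‖c p.1‖ * r ^ ((e p.1).1 + (e p.1).2)) *
      (‖c' p.2‖ * r ^ ((e' p.2).1 + (e' p.2).2)) :=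
    h2.mul_of_nonneg h2' (fun i => by positivity) (fun i => by positivity)
  have heq : ∀ p : ι × ι', ‖c p.1 * c' p.2‖ * r ^ (((e p.1).1 + (e' p.2).1) + ((e p.1).2 + (e' p.2).2)) =
      (‖c p.1‖ * r ^ ((e p.1).1 + (e p.1).2)) * (‖c' p.2‖ * r ^ ((e' p.2).1 + (e' p.2).2)) := by
    intro p
    rw [norm_mul]
    ring
  refine ⟨ι × ι', fun p => c p.1 * c' p.2, fun p => ((e p.1).1 + (e' p.2).1, (e p.1).2 + (e' p.2).2),
    fun p => ?_, ?_, ?_, ?_⟩
  · have := h1 p.1
    have := h1' p.2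
    simp only
    omega
  · simp only [heq]; exact hs
  · simp only [heq]
    rw [← h2.tsum_mul_tsum h2' hs]
    exact mul_le_mul h3 h3' (tsum_nonneg fun i => by positivity) hM
  · intro z hz
    obtain ⟨F, hF⟩ : ∃ F : ι → ℂ, F = fun i => c i * (z ^ (e i).1 * (conj z) ^ (e i).2) := ⟨_, rfl⟩
    obtain ⟨F', hF'⟩ : ∃ F' : ι' → ℂ, F' = fun i => c' i * (z ^ (e' i).1 * (conj z) ^ (e' i).2) := ⟨_, rfl⟩
    have hn : Summable fun i => ‖F i‖ := by
      rw [hF]
      exact Summable.of_nonneg_of_le (fun i => norm_nonneg _) (fun i => by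
        rw [norm_mono]
        exact mul_le_mul_of_nonneg_left (pow_le_pow_left₀ (norm_nonneg _) hz _) (norm_nonneg _)) h2
    have hn' : Summable fun i => ‖F' i‖ := by
      rw [hF']
      exact Summable.of_nonneg_of_le (fun i => norm_nonneg _) (fun i => by
        rw [norm_mono]
        exact mul_le_mul_of_nonneg_left (pow_le_pow_left₀ (norm_nonneg _) hz _) (norm_nonneg _)) h2'
    have h5 : HasSum F (f z) := by rw [hF]; exact h4 z hz
    have h5' : HasSum F' (g z) := by rw [hF']; exact h4' z hz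
    have hp := h5.mul h5' (summable_mul_of_summable_norm hn hn')
    have hfe : (fun p : ι × ι' => c p.1 * c' p.2 * (z ^ ((e p.1).1 + (e' p.2).1) *
        (conj z) ^ ((e p.1).2 + (e' p.2).2))) = fun p : ι × ι' => F p.1 * F' p.2 := by
      funext p
      rw [pow_add, pow_add, hF, hF']
      ring
    rw [hfe]
    exact hp

lemma rep_const (r : ℝ) (c : ℂ) : Rep 0 r ‖c‖ (fun _ => c) := by
  refine ⟨Unit, fun _ => c, fun _ => (0, 0), fun _ => by simp, Summable.of_finite, by simp, ?_⟩
  intro z _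
  simpa using hasSum_fintype (fun _ : Unit => c * (z ^ 0 * (conj z) ^ 0))

lemma rep_id (r : ℝ) : Rep 1 r r (fun z => z) := by
  refine ⟨Unit, fun _ => 1, fun _ => (1, 0), fun _ => by simp, Summable.of_finite, by simp, ?_⟩
  intro z _
  simpa using hasSum_fintype (fun _ : Unit => (1:ℂ) * (z ^ 1 * (conj z) ^ 0))

lemma Rep.conj (h : Rep d r M f) : Rep d r M (fun z => conj (f z)) := by
  obtain ⟨ι, c, e, h1, h2, h3, h4⟩ := h
  refine ⟨ι, fun i => conj (c i), fun i => ((e i).2, (e i).1), fun i => by rw [add_comm]; exact h1 i,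
    by simpa [add_comm] using h2, by simpa [add_comm] using h3, ?_⟩
  intro z hz
  have h5 := (h4 z hz).star
  have hfe : (fun i => conj (c i) * (z ^ (e i).2 * (conj z) ^ (e i).1)) =
      fun i => star (c i * (z ^ (e i).1 * (conj z) ^ (e i).2)) := by
    funext i
    rw [star_mul', star_mul', star_pow, star_pow]
    simp only [Complex.star_def, Complex.conj_conj]
    ring
  simp only [hfe]
  exact h5

lemma Rep.const_mul (hr : 0 ≤ r) (c : ℂ) (h : Rep d r M f) : Rep d r (‖c‖ * M) (fun z => c * f z) := by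
  have := (rep_const r c).mul hr h
  simpa using this

lemma Rep.pow (hr : 0 ≤ r) (h : Rep d r M f) (n : ℕ) : Rep (n * d) r (M ^ n) (fun z => (f z) ^ n) := by
  induction n with
  | zero => simpa using rep_const r (1:ℂ)
  | succ n ih =>
    have := ih.mul hr h
    simp only [pow_succ]
    convert this using 1
    ring

lemma Rep.exp (hr : 0 ≤ r) (h : Rep 0 r M f) : ∃ N, Rep 0 r N (fun z => Complex.exp (f z)) := by
  refine ⟨_, Rep.tsum (F := fun (n : ℕ) z => ((n.factorial : ℂ)⁻¹) * (f z) ^ n)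
    (N := fun n : ℕ => ‖((n.factorial : ℂ)⁻¹)‖ * M ^ n) hr (fun n => ?_) ?_ ?_⟩
  · have := (h.pow hr n).const_mul hr ((n.factorial : ℂ)⁻¹)
    simpa using this
  · have := Real.summable_pow_div_factorial M
    refine this.congr fun n => ?_
    simp [div_eq_inv_mul]
  · intro z _
    have h5 := NormedSpace.expSeries_div_hasSum_exp (f z)
    rw [← Complex.exp_eq_exp_ℂ] at h5
    have hfe : (fun n : ℕ => ((n.factorial : ℂ)⁻¹) * (f z) ^ n) = fun n : ℕ => f z ^ n / (n.factorial : ℂ) := by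
      funext n
      rw [div_eq_inv_mul]
    rw [hfe]
    exact h5

/-- composition -/
lemma Rep.comp {R t : ℝ} {d' : ℕ} (hR : 0 < R) (hr : 0 ≤ r) (ht : 0 ≤ t) (htR : t ≤ R)
    (hf : Rep d R M f) (hg : Rep d' r t g) : Rep 0 r (M * (t / R) ^ d) (fun z => f (g z)) := by
  obtain ⟨ι, c, e, h1, h2, h3, h4⟩ := hf
  have hb : ∀ i, ‖c i‖ * (t ^ (e i).1 * t ^ (e i).2) ≤ (‖c i‖ * R ^ ((e i).1 + (e i).2)) * (t / R) ^ d := by
    intro i
    have h5 : t ^ (e i).1 * t ^ (e i).2 = R ^ ((e i).1 + (e i).2) * (t / R) ^ ((e i).1 + (e i).2) := by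
      rw [div_pow, mul_div_cancel₀ _ (pow_ne_zero _ hR.ne'), pow_add]
    rw [h5, ← mul_assoc]
    apply mul_le_mul_of_nonneg_left _ (by positivity)
    exact pow_le_pow_of_le_one (by positivity) (by rw [div_le_one hR]; exact htR) (h1 i)
  have hs : Summable fun i => ‖c i‖ * (t ^ (e i).1 * t ^ (e i).2) :=
    Summable.of_nonneg_of_le (fun i => by positivity) hb (h2.mul_right _)
  have hg0 := hg.mono_order (Nat.zero_le d')
  have hN : ∑' i, ‖c i‖ * (t ^ (e i).1 * t ^ (e i).2) ≤ M * (t / R) ^ d := by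
    refine (hs.tsum_le_tsum hb (h2.mul_right _)).trans ?_
    rw [tsum_mul_right]
    exact mul_le_mul_of_nonneg_right h3 (by positivity)
  refine Rep.mono (Rep.tsum (F := fun i z => c i * ((g z) ^ (e i).1 * (conj (g z)) ^ (e i).2)) hr
    (fun i => ?_) hs ?_) hN
  · have h6 := ((hg0.pow hr (e i).1).mul hr (hg0.conj.pow hr (e i).2)).const_mul hr (c i)
    simpa using h6
  · intro z hz
    by_cases hr0 : r = 0
    · have hgz : ‖g z‖ ≤ t := by
        obtain ⟨ι', c', e', h1', h2', h3', h4'⟩ := hg0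
        rw [← (h4' z hz).tsum_eq]
        refine (tsum_of_norm_bounded h2'.hasSum fun i => ?_).trans h3'
        rw [norm_mono]
        exact mul_le_mul_of_nonneg_left (pow_le_pow_left₀ (norm_nonneg _) hz _) (norm_nonneg _)
      exact h4 _ (hgz.trans htR)
    · have hr' : 0 < r := lt_of_le_of_ne hr (Ne.symm hr0)
      exact h4 _ ((hg0.bound0 hr' hz).trans htR)


/-- the multilinear form of the monomial `z^m (conj z)^(N-m)` -/
noncomputable def monoM (N m : ℕ) : ContinuousMultilinearMap ℝ (fun _ : Fin N => ℂ) ℂ :=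
  (ContinuousMultilinearMap.mkPiAlgebra ℝ (Fin N) ℂ).compContinuousLinearMap
    (fun j => if j.1 < m then ContinuousLinearMap.id ℝ ℂ else Complex.conjCLE.toContinuousLinearMap)

lemma monoM_norm (N m : ℕ) : ‖monoM N m‖ ≤ 1 := by
  refine ContinuousMultilinearMap.opNorm_le_bound zero_le_one fun x => ?_
  simp only [monoM, ContinuousMultilinearMap.compContinuousLinearMap_apply,
    ContinuousMultilinearMap.mkPiAlgebra_apply, norm_prod, one_mul]
  refine le_of_eq (Finset.prod_congr rfl fun j _ => ?_)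
  split_ifs <;> simp

lemma monoM_apply (m n : ℕ) (z : ℂ) : monoM (m + n) m (fun _ => z) = z ^ m * (conj z) ^ n := by
  simp only [monoM, ContinuousMultilinearMap.compContinuousLinearMap_apply,
    ContinuousMultilinearMap.mkPiAlgebra_apply]
  rw [Fin.prod_univ_add]
  congr 1
  · have : ∀ j : Fin m, (if (Fin.castAdd n j).1 < m then ContinuousLinearMap.id ℝ ℂ
        else Complex.conjCLE.toContinuousLinearMap) z = z := fun j => by simp
    simp
  · simp

/-- absolutely convergent series of monomials are real-analytic -/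
theorem Rep.analyticAt (hr : 0 < r) (h : Rep d r M f) : AnalyticAt ℝ f 0 := by
  obtain ⟨ι, c, e, h1, h2, h3, h4⟩ := h
  let deg : ι → ℕ := fun i => (e i).1 + (e i).2
  let p : FormalMultilinearSeries ℝ ℂ ℂ := fun N =>
    ∑' i : deg ⁻¹' {N}, c i • monoM N (e i).1
  have hterm : ∀ (N : ℕ) (i : deg ⁻¹' {N}), ‖c i • monoM N (e i).1‖ ≤ ‖c i‖ := by
    intro N i
    rw [norm_smul]
    exact mul_le_of_le_one_right (norm_nonneg _) (monoM_norm N (e i).1)
  have hdeg : ∀ (N : ℕ) (i : deg ⁻¹' {N}), (e i).1 + (e i).2 = N := fun N i => i.2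
  have hsub : ∀ N, Summable fun i : deg ⁻¹' {N} => ‖c i‖ := by
    intro N
    have h5 : Summable fun i : deg ⁻¹' {N} => ‖c i‖ * r ^ N := by
      have := h2.subtype (deg ⁻¹' {N})
      refine this.congr fun i => ?_
      simp only [Function.comp]
      rw [hdeg N i]
    have h6 := h5.mul_right ((r ^ N)⁻¹)
    refine h6.congr fun i => ?_
    rw [mul_assoc, mul_inv_cancel₀ (pow_ne_zero _ hr.ne'), mul_one]
  have hsum : ∀ N, Summable fun i : deg ⁻¹' {N} => c i • monoM N (e i).1 := fun N =>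
    Summable.of_norm_bounded (hsub N) (hterm N)
  have hnorm : ∀ N, ‖p N‖ * r ^ N ≤ M := by
    intro N
    have h5 : ‖p N‖ ≤ ∑' i : deg ⁻¹' {N}, ‖c i‖ := tsum_of_norm_bounded (hsub N).hasSum (hterm N)
    calc ‖p N‖ * r ^ N ≤ (∑' i : deg ⁻¹' {N}, ‖c i‖) * r ^ N :=
          mul_le_mul_of_nonneg_right h5 (by positivity)
      _ = ∑' i : deg ⁻¹' {N}, ‖c i‖ * r ^ ((e i).1 + (e i).2) := by
          rw [← tsum_mul_right]
          exact tsum_congr fun i => by rw [hdeg N i]
      _ ≤ ∑' i, ‖c i‖ * r ^ ((e i).1 + (e i).2) :=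
          h2.tsum_subtype_le (fun i => ‖c i‖ * r ^ ((e i).1 + (e i).2)) _ (fun i => by positivity)
      _ ≤ M := h3
  have hball : HasFPowerSeriesOnBall f p 0 (ENNReal.ofReal r) := by
    refine ⟨?_, by simpa using hr, ?_⟩
    · have := p.le_radius_of_bound M (r := r.toNNReal) (fun N => by
        rw [Real.coe_toNNReal r hr.le]; exact hnorm N)
      exact this
    · intro y hy
      rw [zero_add]
      have hy' : ‖y‖ ≤ r := by
        have h5 : ‖y‖ < r := by simpa using hy
        exact h5.le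
      have h5 := (h4 y hy').tsum_fiberwise deg
      have h6 : (fun N => ∑' i : deg ⁻¹' {N}, c i * (y ^ (e i).1 * (conj y) ^ (e i).2)) =
          fun N => p N fun _ => y := by
        funext N
        simp only [p]
        rw [ContinuousMultilinearMap.tsum_eval (hsum N)]
        refine tsum_congr fun i => ?_
        obtain ⟨i, hi⟩ := i
        have hi' : (e i).1 + (e i).2 = N := hi
        subst hi'
        simp [monoM_apply]
      rw [← h6]
      exact h5
  exact ⟨p, _, hball⟩


/-- a series which is `o(z)` at the origin has only terms of order at least two -/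
theorem Rep.order_two (hr : 0 < r) (h : Rep 0 r M f) (ho : f =o[𝓝 0] fun z => z) : Rep 2 r M f := by
  obtain ⟨ι, c, e, h1, h2, h3, h4⟩ := h
  classical
  let cls : ι → Fin 4 := fun i => if e i = (0, 0) then 0 else if e i = (1, 0) then 1 else
    if e i = (0, 1) then 2 else 3
  have c0 : ∀ i, cls i = 0 → e i = (0, 0) := by
    intro i hi
    simp only [cls] at hi
    split_ifs at hi with a1 a2 a3
    · exact a1
    all_goals exact absurd hi (by decide)
  have c1 : ∀ i, cls i = 1 → e i = (1, 0) := by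
    intro i hi
    simp only [cls] at hi
    split_ifs at hi with a1 a2 a3
    · exact absurd hi (by decide)
    · exact a2
    all_goals exact absurd hi (by decide)
  have c2 : ∀ i, cls i = 2 → e i = (0, 1) := by
    intro i hi
    simp only [cls] at hi
    split_ifs at hi with a1 a2 a3
    · exact absurd hi (by decide)
    · exact absurd hi (by decide)
    · exact a3
    · exact absurd hi (by decide)
  have c3 : ∀ i, cls i = 3 → 2 ≤ (e i).1 + (e i).2 := by
    intro i hi
    simp only [cls] at hi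
    split_ifs at hi with a1 a2 a3
    · exact absurd hi (by decide)
    · exact absurd hi (by decide)
    · exact absurd hi (by decide)
    · by_contra hcon
      push Not at hcon
      have : e i = (0, 0) ∨ e i = (1, 0) ∨ e i = (0, 1) := by
        rcases hei : e i with ⟨m, n⟩
        rw [hei] at hcon
        simp only at hcon
        simp only [Prod.mk.injEq]
        omega
      tauto
  -- the part of order at least two
  let R : ℂ → ℂ := fun z => ∑' i : cls ⁻¹' {3}, c i * (z ^ (e i).1 * (conj z) ^ (e i).2)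
  have hsummable : ∀ z : ℂ, ‖z‖ ≤ r → Summable fun i => c i * (z ^ (e i).1 * (conj z) ^ (e i).2) := by
    intro z hz
    exact (h4 z hz).summable
  have hR : Rep 2 r M R := by
    refine ⟨cls ⁻¹' {3}, fun i => c i, fun i => e i, fun i => c3 i i.2, h2.subtype _, ?_, ?_⟩
    · exact (h2.tsum_subtype_le (fun i => ‖c i‖ * r ^ ((e i).1 + (e i).2)) (cls ⁻¹' {3})
        (fun i => by positivity)).trans h3
    · intro z hz
      exact ((hsummable z hz).subtype _).hasSum
  obtain ⟨A0, hA0⟩ : ∃ A0 : ℂ, A0 = ∑' i : cls ⁻¹' {0}, c i := ⟨_, rfl⟩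
  obtain ⟨A1, hA1⟩ : ∃ A1 : ℂ, A1 = ∑' i : cls ⁻¹' {1}, c i := ⟨_, rfl⟩
  obtain ⟨A2, hA2⟩ : ∃ A2 : ℂ, A2 = ∑' i : cls ⁻¹' {2}, c i := ⟨_, rfl⟩
  have hf : ∀ z : ℂ, ‖z‖ ≤ r → f z = A0 + A1 * z + A2 * conj z + R z := by
    intro z hz
    have h5 := (h4 z hz).tsum_fiberwise cls
    have h6 := hasSum_fintype (fun c' : Fin 4 => ∑' i : cls ⁻¹' {c'}, c i * (z ^ (e i).1 * (conj z) ^ (e i).2))
    have h7 := h5.unique h6
    rw [h7, Fin.sum_univ_four]
    congr 1
    congr 1
    · congr 1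
      · rw [hA0]
        refine tsum_congr fun i => ?_
        rw [c0 i i.2]; simp
      · rw [hA1, ← tsum_mul_right]
        refine tsum_congr fun i => ?_
        rw [c1 i i.2]; simp
    · rw [hA2, ← tsum_mul_right]
      refine tsum_congr fun i => ?_
      rw [c2 i i.2]; simp
  -- the linear part vanishes
  have hRo : R =o[𝓝 0] fun z => z := by
    rw [Asymptotics.isLittleO_iff]
    intro ε hε
    have hM : 0 ≤ M := hR.nonneg hr.le
    have hδ : 0 < min r (ε * r ^ 2 / (M + 1)) := lt_min hr (by positivity)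
    filter_upwards [Metric.ball_mem_nhds (0:ℂ) hδ] with z hz
    rw [mem_ball_zero_iff] at hz
    have hz1 : ‖z‖ ≤ r := (hz.trans_le (min_le_left _ _)).le
    have hz2 : ‖z‖ ≤ ε * r ^ 2 / (M + 1) := (hz.trans_le (min_le_right _ _)).le
    refine (hR.bound hr hz1).trans ?_
    rw [le_div_iff₀ (by positivity)] at hz2
    rw [div_pow, ← mul_div_assoc, div_le_iff₀ (by positivity)]
    nlinarith [norm_nonneg z]
  have hL : (fun z : ℂ => A0 + A1 * z + A2 * conj z) =o[𝓝 0] fun z => z := by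
    have h5 := ho.sub hRo
    refine h5.congr' ?_ (EventuallyEq.refl _ _)
    filter_upwards [Metric.closedBall_mem_nhds (0:ℂ) hr] with z hz
    rw [mem_closedBall_zero_iff] at hz
    rw [hf z hz]; ring
  have hA0' : A0 = 0 := by
    have h5 := hL.eventuallyLE
    have h6 := h5.self_of_nhds
    simpa using h6
  subst hA0'
  have hlin : ∀ u : ℂ, ‖u‖ = 1 → A1 * u + A2 * conj u = 0 := by
    intro u hu
    by_contra hne
    have hpos : 0 < ‖A1 * u + A2 * conj u‖ := norm_pos_iff.mpr hne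
    rw [Asymptotics.isLittleO_iff] at hL
    have h5 := hL (half_pos hpos)
    rw [Metric.eventually_nhds_iff] at h5
    obtain ⟨δ, hδ, h6⟩ := h5
    have h7 := h6 (y := ((δ / 2 : ℝ) : ℂ) * u) (by
      rw [dist_zero_right, norm_mul, hu, mul_one, Complex.norm_real, Real.norm_eq_abs, abs_of_pos (half_pos hδ)]
      exact half_lt_self hδ)
    have h8 : (0:ℂ) + A1 * (((δ / 2 : ℝ) : ℂ) * u) + A2 * conj (((δ / 2 : ℝ) : ℂ) * u) =
        ((δ / 2 : ℝ) : ℂ) * (A1 * u + A2 * conj u) := by
      rw [map_mul, Complex.conj_ofReal]; ring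
    rw [h8, norm_mul, norm_mul, hu, mul_one, Complex.norm_real, Real.norm_eq_abs, abs_of_pos (half_pos hδ)] at h7
    have h9 : 0 < δ / 2 := half_pos hδ
    nlinarith
  have hu1 := hlin 1 (by simp)
  have hu2 := hlin Complex.I (by simp)
  have hA1' : A1 = 0 := by
    simp only [mul_one, map_one] at hu1
    rw [Complex.conj_I] at hu2
    have h5 : (A1 - A2) * Complex.I = 0 := by linear_combination hu2
    have h6 : A1 - A2 = 0 := by
      rcases mul_eq_zero.mp h5 with h | h
      · exact h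
      · exact absurd h Complex.I_ne_zero
    have h7 : (2:ℂ) * A1 = 0 := by linear_combination hu1 + h6
    simpa using h7
  have hA2' : A2 = 0 := by
    rw [hA1'] at hu1
    simpa using hu1
  obtain ⟨ι', c', e', g1, g2, g3, g4⟩ := hR
  refine ⟨ι', c', e', g1, g2, g3, fun z hz => ?_⟩
  have := g4 z hz
  rw [hf z hz, hA1', hA2']
  simpa using this

end Pool.Agent.Helper89.Plane
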